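import Pool.Agent.X312.RL.Rel
import Pool.Agent.Y133.Half.Per
import Pool.Agent.Y133.Half.Abs

/-!
# The relative law for classes given by a property
-/

open CategoryTheory AlgebraicGeometry

universe u v w

namespace Pool.Agent.X312.RL

open Module Polynomial
open Pool.Agent.H914 Pool.Agent.H914.VarClass Pool.Agent.H914.VarClass.Obj
  Pool.Agent.H914.WeilCohomology Pool.Agent.Y133.Half Pool.Agent.Y133.Half.Sys

variable {k : Type u} [Field k] {𝒱 : VarClass k} {ops : CycleOps 𝒱}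
  {W : WeilCohomology.{u, v} ops} {X Y Z : 𝒱.Obj}

lemma alg_num_eq_bot_iff (Z : 𝒱.Obj) : (algSys W).Num Z = ⊥ ↔ HomEqNum W Z :=
  (homEqNum_iff Z).symm

/-- **The relative law for a class of cohomology classes.** -/
theorem pred_rel (Q : ClassPred W) (X Y : 𝒱.Obj) (m : ℕ) :
    ((∀ j c, Q.P (Y.prod (pw X m)) j c → c ∈ spanCycles W (Y.prod (pw X m)) j) ∧
      HomEqNum W (Y.prod (pw X m))) ∨
    ∀ n, (cycRank ops (Y.prod (pw X n)) : ℝ) +
      (1 - cst (finrank W.K (W.H X)) (m + 1) 2 n) * cycRank ops (pw X n) ≤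
        dimOf W {c | ∃ j, Q.P (Y.prod (pw X n)) j c} := by
  by_cases hne : (algSys W).C (Y.prod (pw X m)) ≠ Q.sys.C (Y.prod (pw X m)) ∨
    (algSys W).Num (Y.prod (pw X m)) ≠ ⊥
  · right
    intro n
    have h := full_rel (S := algSys W) (T := Q.sys) (fun _ => ClassPred.alg_le) Y hne n
    rw [numDim_eq_cycRank, numDim_eq_cycRank, ClassPred.sp_finrank] at h
    exact h
  · left
    push Not at hne
    exact ⟨(ClassPred.sp_eq_iff _).1 hne.1.symm, (alg_num_eq_bot_iff _).1 hne.2⟩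

/-- The relative law for a class of cohomology classes with a perfect pairing. -/
theorem pred_rel_nondeg (Q : ClassPred W) (X Y : 𝒱.Obj) (m : ℕ)
    (hQ : ∀ n, Nondeg Q.sys (Y.prod (pw X n))) :
    (∀ j c, Q.P (Y.prod (pw X m)) j c → c ∈ spanCycles W (Y.prod (pw X m)) j) ∨
    ∀ n, (algDim W (Y.prod (pw X n)) : ℝ) +
      (1 - cst (finrank W.K (W.H X)) (m + 1) 2 n) * cycRank ops (pw X n) ≤
        dimOf W {c | ∃ j, Q.P (Y.prod (pw X n)) j c} := by
  by_cases hne : (algSys W).C (Y.prod (pw X m)) = Q.sys.C (Y.prod (pw X m))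
  · exact Or.inl ((ClassPred.sp_eq_iff _).1 hne.symm)
  · right
    intro n
    have h := full_rel_nondeg (S := algSys W) (T := Q.sys) (fun _ => ClassPred.alg_le) Y hne n
      (hQ n)
    rw [numDim_eq_cycRank, ClassPred.sp_finrank] at h
    rw [algDim_eq]
    exact h

end Pool.Agent.X312.RL

namespace Pool.Agent.X312.RL

open Module
open Pool.Agent.H914 Pool.Agent.H914.VarClass Pool.Agent.H914.VarClass.Obj
  Pool.Agent.H914.WeilCohomology Pool.Agent.Y133.Half Pool.Agent.Y133.Half.Sys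

variable {k : Type u} [Field k] {𝒱 : VarClass k} {ops : CycleOps 𝒱}
  {W : WeilCohomology.{u, v} ops} {X Y Z : 𝒱.Obj}

lemma num_eq_bot_of {S : Sys W} (h : Nondeg S Z) : S.Num Z = ⊥ := by
  rw [eq_bot_iff]
  intro x hx
  exact (Submodule.mem_bot _).2 (h x hx.1 fun y hy => hx.2 y hy)

lemma a_eq_of {S : Sys W} (h : Nondeg S Z) : S.a Z = finrank W.K (S.C Z) := by
  have h1 := S.a_add_num Z
  rw [num_eq_bot_of h, finrank_bot, add_zero] at h1
  exact h1

/-- A homogeneous class in the span has the property. -/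
lemma pred_of_sp {Q : ClassPred W} {j : ℕ} {c : W.H Z} (hc : c ∈ Q.sp Z)
    (hg : c ∈ W.gr Z (2 * j)) : Q.P Z j c := by
  have h1 := ClassPred.sp_proj hc j
  rwa [proj_same _ hg] at h1

/-- **The relative law for two classes of cohomology classes**, the smaller one of which has a perfect
pairing. -/
theorem pred_pair_rel (Q₁ Q₂ : ClassPred W)
    (h12 : ∀ {X : 𝒱.Obj} {j : ℕ} {c : W.H X}, Q₁.P X j c → Q₂.P X j c)
    (hnd : ∀ Z, Nondeg Q₁.sys Z) (X Y : 𝒱.Obj) (m : ℕ) :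
    (∀ j c, Q₂.P (Y.prod (pw X m)) j c → Q₁.P (Y.prod (pw X m)) j c) ∨
    ∀ n, (dimOf W {c | ∃ j, Q₁.P (Y.prod (pw X n)) j c} : ℝ) +
      (1 - cst (finrank W.K (W.H X)) (m + 1) 2 n) * dimOf W {c | ∃ j, Q₁.P (pw X n) j c} ≤
        dimOf W {c | ∃ j, Q₂.P (Y.prod (pw X n)) j c} := by
  have hle : ∀ Z, Q₁.sys.C Z ≤ Q₂.sys.C Z := fun Z =>
    Submodule.span_mono fun c ⟨j, hc⟩ => ⟨j, h12 hc⟩
  by_cases hne : Q₁.sys.C (Y.prod (pw X m)) = Q₂.sys.C (Y.prod (pw X m))
  · left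
    intro j c hc
    have h1 : c ∈ Q₂.sys.C (Y.prod (pw X m)) := ClassPred.sp_of hc
    rw [← hne] at h1
    exact pred_of_sp h1 (Q₂.gr hc)
  · right
    intro n
    have h := full_rel (S := Q₁.sys) (T := Q₂.sys) hle Y (Or.inl hne) n
    rw [a_eq_of (hnd _), a_eq_of (hnd _), ClassPred.sp_finrank, ClassPred.sp_finrank,
      ClassPred.sp_finrank] at h
    exact h

end Pool.Agent.X312.RL
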