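import Pool.Agent.X312.RL.Main

/-!
# Relative laws on the products of a fixed variety with the powers of a variety
-/

open CategoryTheory AlgebraicGeometry

universe u v w

namespace Pool.Agent.X312.RL

open Module Polynomial
open Pool.Agent.H914 Pool.Agent.H914.VarClass Pool.Agent.H914.VarClass.Obj
  Pool.Agent.H914.WeilCohomology Pool.Agent.Y133.Half Pool.Agent.Y133.Half.Sys
  Pool.Agent.X312.DL

variable {k : Type u} [Field k] {𝒱 : VarClass k} {ops : CycleOps 𝒱}
  {W : WeilCohomology.{u, v} ops} {X Y Z : 𝒱.Obj} (S T : Sys W)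

lemma corrL_injective (X Y : 𝒱.Obj) : Function.Injective (corrL W X Y) := by
  intro c d h
  rw [← sub_eq_zero]
  apply corr_inj
  have h1 : corrL W X Y (c - d) = 0 := by rw [map_sub, h, sub_self]
  exact h1

lemma finrank_op (Y Z : 𝒱.Obj) : finrank W.K (S.Op Y Z) = finrank W.K (S.C (Y.prod Z)) :=
  (Submodule.equivMapOfInjective _ (corrL_injective Y Z) _).finrank_eq.symm

lemma finrank_nop (Y Z : 𝒱.Obj) : finrank W.K (S.NOp Y Z) = finrank W.K (S.Num (Y.prod Z)) :=
  (Submodule.equivMapOfInjective _ (corrL_injective Y Z) _).finrank_eq.symm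

lemma snd_injective (h1 : (1 : W.H Y) ≠ 0) : Function.Injective (W.map (snd Y Z)) := by
  intro x y hxy
  have h3 : xp W (1 : W.H Y) (x - y) = 0 := by
    rw [xp, map_one, one_mul, map_sub, hxy, sub_self]
  exact sub_eq_zero.1 (xp_eq_zero_left h1 h3)

lemma one_ne_zero_left {x : W.H (Y.prod Z)} (hx : x ≠ 0) : (1 : W.H Y) ≠ 0 := by
  intro h
  apply one_ne_zero_of hx
  rw [← map_one (W.map (fst Y Z)), h, map_zero]

lemma _root_.Pool.Agent.Y133.Half.Sys.finrank_num_le (S : Sys W) (h1 : (1 : W.H Y) ≠ 0) :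
    finrank W.K (S.Num Z) ≤ finrank W.K (S.Num (Y.prod Z)) := by
  let f : S.Num Z →ₗ[W.K] S.Num (Y.prod Z) :=
    (W.map (snd Y Z)).toLinearMap.restrict fun _ hc => Num.map _ hc
  refine LinearMap.finrank_le_finrank_of_injective (f := f) ?_
  intro x y h
  exact Subtype.ext (snd_injective h1 (congrArg Subtype.val h))

lemma cst_nonneg (b m : ℕ) {ρ : ℝ} (hρ : 0 ≤ ρ) (n : ℕ) : 0 ≤ cst b m ρ n := by
  unfold cst
  have := log_nonneg' n
  positivity

/-- There is a class of degree one, or all ranks vanish. -/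
lemma _root_.Pool.Agent.Y133.Half.Sys.exists_one_or (S : Sys W) (X : 𝒱.Obj) : (∃ l ∈ S.C X, W.tr X l = 1) ∨ ∀ n, S.a (pw X n) = 0 := by
  by_cases hZ : ∀ l ∈ S.C X, W.tr X l = 0
  · exact Or.inr fun n => S.a_eq_zero_of hZ n
  · push Not at hZ
    obtain ⟨l', hl', hl'0⟩ := hZ
    exact Or.inl ⟨(W.tr X l')⁻¹ • l', Submodule.smul_mem _ _ hl', by
      rw [map_smul, smul_eq_mul, inv_mul_cancel₀ hl'0]⟩

/-- If the rank is at most half of the dimension, it is at most the dimension of the space of the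
numerically trivial classes. -/
lemma _root_.Pool.Agent.Y133.Half.Sys.a_le_num (S : Sys W) {Z : 𝒱.Obj} (h : (2 : ℝ) * S.a Z ≤ finrank W.K (S.C Z)) :
    S.a Z ≤ finrank W.K (S.Num Z) := by
  have h1 := S.a_add_num Z
  have h2 : 2 * S.a Z ≤ finrank W.K (S.C Z) := by exact_mod_cast h
  omega

/-- **The relative law for numerical equivalence.** If some nonzero class of the system on
`Y × X^(m+1)` is numerically trivial, then for all `n` the dimension of the space of the numerically
trivial classes on `Y × X^(n+1)` is at least `1 - C log (n+2) / (n+1)` times the rank of the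
intersection form on the classes on `X^(n+1)`. -/
theorem _root_.Pool.Agent.Y133.Half.Sys.num_rel (S : Sys W) (Y : 𝒱.Obj) {m : ℕ} (hne : S.Num (Y.prod (pw X m)) ≠ ⊥) (n : ℕ) :
    (1 - cst (finrank W.K (W.H X)) (m + 1) 2 n) * S.a (pw X n) ≤
      finrank W.K (S.Num (Y.prod (pw X n))) := by
  have hc := cst_nonneg (finrank W.K (W.H X)) (m + 1) (ρ := 2) (by norm_num) n
  have ha : (0 : ℝ) ≤ S.a (pw X n) := Nat.cast_nonneg _
  rcases S.exists_one_or X with ⟨l, hl, hl1⟩ | h0
  swap
  · rw [h0, Nat.cast_zero, mul_zero]; exact Nat.cast_nonneg _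
  obtain ⟨z, hz, hz0⟩ := Submodule.exists_mem_ne_zero_of_ne_bot hne
  have hne' : (⊥ : Submodule W.K (W.H Y →ₗ[W.K] W.H (pw X m))) ≠ S.NOp Y (pw X m) := by
    intro h
    apply hz0
    apply corr_inj
    have h1 : W.corr z ∈ S.NOp Y (pw X m) := NOp.corr hz
    rw [← h, Submodule.mem_bot] at h1
    exact h1
  rcases (isMdl_hom S Y).bound hl hl1 (fun m => fine_hom S Y (pw X m)) (stable_bot S Y)
    (stable_num S Y) (fun _ => bot_le) hne' (le_refl (2 : ℝ)) n inferInstance with h | h
  · rw [finrank_bot, Nat.cast_zero, zero_add, finrank_nop] at h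
    exact h
  · have h1 := S.a_le_num (h S)
    have h2 : (S.a (pw X n) : ℝ) ≤ finrank W.K (S.Num (Y.prod (pw X n))) := by
      exact_mod_cast h1.trans (S.finrank_num_le (one_ne_zero_left hz0))
    nlinarith

variable {S T}

/-- **The relative index law.** For systems `S ≤ T` of classes such that `T` is not generated by `S` on
`Y × X^(m+1)`, or some class of `S` on it is numerically trivial: for all `n` the dimension of the
space of the classes of `T` on `Y × X^(n+1)` exceeds the rank of the intersection form on the classes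
of `S` on it at least by `1 - C log (n+2) / (n+1)` times the rank of the intersection form on the
classes of `S` on `X^(n+1)`. -/
theorem full_rel (hST : ∀ X, S.C X ≤ T.C X) (Y : 𝒱.Obj) {m : ℕ}
    (hne : S.C (Y.prod (pw X m)) ≠ T.C (Y.prod (pw X m)) ∨ S.Num (Y.prod (pw X m)) ≠ ⊥) (n : ℕ) :
    S.a (Y.prod (pw X n)) + (1 - cst (finrank W.K (W.H X)) (m + 1) 2 n) * S.a (pw X n) ≤
      finrank W.K (T.C (Y.prod (pw X n))) := by
  have hc := cst_nonneg (finrank W.K (W.H X)) (m + 1) (ρ := 2) (by norm_num) n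
  have ha : (0 : ℝ) ≤ S.a (pw X n) := Nat.cast_nonneg _
  have hle : finrank W.K (S.C (Y.prod (pw X n))) ≤ finrank W.K (T.C (Y.prod (pw X n))) :=
    Submodule.finrank_mono (hST _)
  have hadd := S.a_add_num (Y.prod (pw X n))
  have hle' : (S.a (Y.prod (pw X n)) : ℝ) + finrank W.K (S.Num (Y.prod (pw X n))) ≤
      finrank W.K (T.C (Y.prod (pw X n))) := by
    rw [← hadd] at hle
    exact_mod_cast hle
  rcases hne with hne | hne
  swap
  · have := S.num_rel Y hne n
    linarith
  rcases S.exists_one_or X with ⟨l, hl, hl1⟩ | h0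
  swap
  · rw [h0, Nat.cast_zero, mul_zero, add_zero]
    have h1 : (0 : ℝ) ≤ finrank W.K (S.Num (Y.prod (pw X n))) := Nat.cast_nonneg _
    linarith
  have hY : (1 : W.H Y) ≠ 0 := by
    have hlt := lt_of_le_of_ne (hST _) hne
    obtain ⟨z, hz, hz'⟩ := SetLike.exists_of_lt hlt
    refine one_ne_zero_left (x := z) ?_
    rintro rfl
    exact hz' (Submodule.zero_mem _)
  have hop : ∀ Z, S.Op Y Z ≤ T.Op Y Z := fun Z => Submodule.map_mono (hST _)
  have hne' : S.Op Y (pw X m) ≠ T.Op Y (pw X m) := fun h =>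
    hne (Submodule.map_injective_of_injective (corrL_injective Y (pw X m)) h)
  rcases (isMdl_hom S Y).bound hl hl1 (fun m => fine_hom S Y (pw X m))
    (stable_op (T := S) (fun _ => le_rfl) Y)
    (stable_op hST Y) hop hne' (le_refl (2 : ℝ)) n inferInstance with h | h
  · rw [finrank_op, finrank_op, ← hadd] at h
    push_cast at h
    have h1 : (0 : ℝ) ≤ finrank W.K (S.Num (Y.prod (pw X n))) := Nat.cast_nonneg _
    linarith
  · have h1 := S.a_le_num (h S)
    have h2 : (S.a (pw X n) : ℝ) ≤ finrank W.K (S.Num (Y.prod (pw X n))) := by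
      exact_mod_cast h1.trans (S.finrank_num_le hY)
    nlinarith

/-- The relative index law for nondegenerate systems. -/
theorem full_rel_nondeg (hST : ∀ X, S.C X ≤ T.C X) (Y : 𝒱.Obj) {m : ℕ}
    (hne : S.C (Y.prod (pw X m)) ≠ T.C (Y.prod (pw X m))) (n : ℕ)
    (hT : Nondeg T (Y.prod (pw X n))) :
    finrank W.K (S.C (Y.prod (pw X n))) +
      (1 - cst (finrank W.K (W.H X)) (m + 1) 2 n) * S.a (pw X n) ≤
      finrank W.K (T.C (Y.prod (pw X n))) := by
  have hc := cst_nonneg (finrank W.K (W.H X)) (m + 1) (ρ := 2) (by norm_num) n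
  have ha : (0 : ℝ) ≤ S.a (pw X n) := Nat.cast_nonneg _
  have hle : finrank W.K (S.C (Y.prod (pw X n))) ≤ finrank W.K (T.C (Y.prod (pw X n))) :=
    Submodule.finrank_mono (hST _)
  rcases S.exists_one_or X with ⟨l, hl, hl1⟩ | h0
  swap
  · rw [h0, Nat.cast_zero, mul_zero, add_zero]
    exact_mod_cast hle
  have hY : (1 : W.H Y) ≠ 0 := by
    have hlt := lt_of_le_of_ne (hST _) hne
    obtain ⟨z, hz, hz'⟩ := SetLike.exists_of_lt hlt
    refine one_ne_zero_left (x := z) ?_
    rintro rfl
    exact hz' (Submodule.zero_mem _)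
  have hop : ∀ Z, S.Op Y Z ≤ T.Op Y Z := fun Z => Submodule.map_mono (hST _)
  have hne' : S.Op Y (pw X m) ≠ T.Op Y (pw X m) := fun h =>
    hne (Submodule.map_injective_of_injective (corrL_injective Y (pw X m)) h)
  rcases (isMdl_hom S Y).bound hl hl1 (fun m => fine_hom S Y (pw X m))
    (stable_op (T := S) (fun _ => le_rfl) Y)
    (stable_op hST Y) hop hne' (le_refl (2 : ℝ)) n inferInstance with h | h
  · rw [finrank_op, finrank_op] at h
    exact h
  · have h1 := S.a_le_num (h S)
    have h2 : S.a (pw X n) ≤ finrank W.K (S.Num (Y.prod (pw X n))) :=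
      h1.trans (S.finrank_num_le hY)
    have h3 := S.finrank_ge hST hT
    have h4 := S.a_add_num (Y.prod (pw X n))
    have h5 : finrank W.K (S.C (Y.prod (pw X n))) + S.a (pw X n) ≤
      finrank W.K (T.C (Y.prod (pw X n))) := by omega
    have h6 : (finrank W.K (S.C (Y.prod (pw X n))) : ℝ) + S.a (pw X n) ≤
      finrank W.K (T.C (Y.prod (pw X n))) := by exact_mod_cast h5
    nlinarith

end Pool.Agent.X312.RL
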