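import Pool.Agent.H914R2.KDefs
import Pool.Agent.Y133.Half.HalfDefs
import Pool.Agent.Y133.Half.DDefs

/-!
# The geometric coniveau filtration: definitions
-/

open CategoryTheory AlgebraicGeometry

universe u v w

namespace Pool.Agent.X312.Con

open Pool.Agent.H914 Pool.Agent.H914.VarClass Pool.Agent.H914.VarClass.Obj
  Pool.Agent.H914.WeilCohomology

/-- The sum of the subspaces in `S`. -/
def sumOf {K A : Type*} [Field K] [Ring A] [Algebra K A] (S : Set (Submodule K A)) :
    Submodule K A :=
  sSup S

variable {k : Type u} [Field k] {𝒱 : VarClass k} {ops : CycleOps 𝒱}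

/-- The image of the Gysin map `f_* : H ^ l (T) → H(Z)`. -/
def gysin (W : WeilCohomology.{u, v} ops) {T Z : 𝒱.Obj} (f : T ⟶ Z) (l : ℕ) :
    Submodule W.K (W.H Z) :=
  (W.gr T l).map (W.push f)

/-- The geometric coniveau filtration: `N ^ j H ^ i (Z)` is the sum of the images of the Gysin maps
`f_* : H^(i - 2 j)(T) → H^i(Z)` for all `f : T → Z` with `dim T = dim Z - j`. -/
def geoConiveau (W : WeilCohomology.{u, v} ops) (Z : 𝒱.Obj) (i j : ℕ) : Submodule W.K (W.H Z) :=
  sumOf {N | ∃ (T : 𝒱.Obj) (f : T ⟶ Z) (l : ℕ),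
    T.dim + j = Z.dim ∧ l + 2 * j = i ∧ N = gysin W f l}

/-- The sum of the images of all Gysin maps `f_* : H^w(T) → H(Z)`: the sum of all `N ^ j H ^ (2 j + w) (Z)`
(and of all `H ^ i (Z)` with `i < w` and `i` congruent to `w` modulo two, if `𝒱` is the class of all
smooth projective varieties). -/
def geoSpace (W : WeilCohomology.{u, v} ops) (w : ℕ) (Z : 𝒱.Obj) : Submodule W.K (W.H Z) :=
  sumOf {N | ∃ (T : 𝒱.Obj) (f : T ⟶ Z), N = gysin W f w}

/-- The classes of algebraic cycles are linear combinations of the classes `f_* [T]` for morphisms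
`f : T → Z` with `T` in the class `𝒱` (note that `H ^ 0 (T)` is spanned by `1 = [T]`). This is true for
the class of all smooth projective varieties over an algebraically closed field, by resolution of
singularities in characteristic zero and by the alterations of de Jong in general. -/
def Resolves (W : WeilCohomology.{u, v} ops) : Prop :=
  ∀ (Z : 𝒱.Obj) (j : ℕ) (z : Z.Cycles), Z.IsCyc j z → W.cl Z z ∈ geoSpace W 0 Z

end Pool.Agent.X312.Con
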