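import Pool.Agent.X312.RL.Fam
import Pool.Agent.X312.RL.ConivDefs

/-!
# The geometric coniveau filtration is stable under correspondences
-/

open CategoryTheory AlgebraicGeometry

universe u v w

namespace Pool.Agent.X312.Con

open Module
open Pool.Agent.H914 Pool.Agent.H914.VarClass Pool.Agent.H914.VarClass.Obj
  Pool.Agent.H914.WeilCohomology Pool.Agent.Y133.Half Pool.Agent.Y133.Half.Sys
  Pool.Agent.X312.RL Pool.Agent.H281R3.HT Pool.Agent.W536.RR

variable {k : Type u} [Field k] {𝒱 : VarClass k} {ops : CycleOps 𝒱}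
  {W : WeilCohomology.{u, v} ops} {X Y Z : 𝒱.Obj} {w : ℕ}

lemma geoSpace_eq (w : ℕ) (Z : 𝒱.Obj) : geoSpace W w Z =
    Submodule.span W.K {c | ∃ (T : 𝒱.Obj) (f : T ⟶ Z) (a : W.H T), a ∈ W.gr T w ∧
      W.push f a = c} := by
  apply le_antisymm
  · refine sSup_le ?_
    rintro _ ⟨T, f, rfl⟩ _ ⟨a, ha, rfl⟩
    exact Submodule.subset_span ⟨T, f, a, ha, rfl⟩
  · refine Submodule.span_le.2 ?_
    rintro _ ⟨T, f, a, ha, rfl⟩
    exact (le_sSup ⟨T, f, rfl⟩ : gysin W f w ≤ geoSpace W w Z) ⟨a, ha, rfl⟩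

lemma geo_of {T : 𝒱.Obj} (f : T ⟶ Z) {a : W.H T} (ha : a ∈ W.gr T w) :
    W.push f a ∈ geoSpace W w Z := by
  rw [geoSpace_eq]
  exact Submodule.subset_span ⟨T, f, a, ha, rfl⟩

lemma geoCon_of {i j l : ℕ} {T : 𝒱.Obj} (f : T ⟶ Z) (h1 : T.dim + j = Z.dim)
    (h2 : l + 2 * j = i) {a : W.H T} (ha : a ∈ W.gr T l) :
    W.push f a ∈ geoConiveau W Z i j :=
  (le_sSup ⟨T, f, l, h1, h2, rfl⟩ : gysin W f l ≤ geoConiveau W Z i j) ⟨a, ha, rfl⟩

lemma geo_ind {p : W.H Z → Prop} (h0 : p 0) (hadd : ∀ a b, p a → p b → p (a + b))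
    (hsmul : ∀ (t : W.K) a, p a → p (t • a))
    (h : ∀ (T : 𝒱.Obj) (f : T ⟶ Z) (a : W.H T), a ∈ W.gr T w → p (W.push f a)) {c : W.H Z}
    (hc : c ∈ geoSpace W w Z) : p c := by
  rw [geoSpace_eq] at hc
  induction hc using Submodule.span_induction with
  | mem c hc =>
    obtain ⟨T, f, a, ha, rfl⟩ := hc
    exact h T f a ha
  | zero => exact h0
  | add x y _ _ hx hy => exact hadd x y hx hy
  | smul t x _ hx => exact hsmul t x hx

lemma Resolves.span (h : Resolves W) {Z : 𝒱.Obj} {d : W.H Z} (hd : d ∈ algSpan W Z) :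
    d ∈ geoSpace W 0 Z := by
  refine algSpan_induction (p := fun c => c ∈ geoSpace W 0 Z) (Submodule.zero_mem _)
    (fun a b ha hb => Submodule.add_mem _ ha hb) (fun t a ha => Submodule.smul_mem _ t ha)
    (fun j z hz => h Z j z hz) hd

lemma geo_push (f : X ⟶ Y) {c : W.H X} (hc : c ∈ geoSpace W w X) :
    W.push f c ∈ geoSpace W w Y := by
  refine geo_ind (p := fun c => W.push f c ∈ geoSpace W w Y) ?_ ?_ ?_ ?_ hc
  · rw [map_zero]; exact Submodule.zero_mem _
  · intro x y hx hy; rw [map_add]; exact Submodule.add_mem _ hx hy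
  · intro t x hx; rw [map_smul]; exact Submodule.smul_mem _ t hx
  · intro T g a ha
    rw [← W.push_comp]
    exact geo_of _ ha

lemma geo_mul (h : Resolves W) {c d : W.H Z} (hc : c ∈ geoSpace W w Z) (hd : d ∈ algSpan W Z) :
    c * d ∈ geoSpace W w Z := by
  refine geo_ind (p := fun c => c * d ∈ geoSpace W w Z) ?_ ?_ ?_ ?_ hc
  · rw [zero_mul]; exact Submodule.zero_mem _
  · intro x y hx hy; rw [add_mul]; exact Submodule.add_mem _ hx hy
  · intro t x hx; rw [smul_mul_assoc]; exact Submodule.smul_mem _ t hx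
  · intro T g a ha
    rw [← W.push_mul]
    apply geo_push
    refine geo_ind (p := fun e => a * e ∈ geoSpace W w T) ?_ ?_ ?_ ?_
      (h.span (algSpan_map g hd))
    · rw [mul_zero]; exact Submodule.zero_mem _
    · intro x y hx hy; rw [mul_add]; exact Submodule.add_mem _ hx hy
    · intro t x hx; rw [mul_smul_comm]; exact Submodule.smul_mem _ t hx
    · intro R r e he
      rw [W.gr_zero] at he
      obtain ⟨t, rfl⟩ := Submodule.mem_span_singleton.1 he
      have h1 : a * W.push r 1 = W.push r (W.map r a) := by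
        rw [← Pool.Agent.Y129.algSpan_even (algSpan_push r one_mem_algSpan), ← W.push_mul, one_mul]
      rw [map_smul, mul_smul_comm, h1]
      exact Submodule.smul_mem _ t (geo_of _ (W.map_mem r ha))

lemma geo_map_snd {Z' : 𝒱.Obj} {c : W.H Z} (hc : c ∈ geoSpace W w Z) :
    W.map (snd Z' Z) c ∈ geoSpace W w (Z'.prod Z) := by
  refine geo_ind (p := fun c => W.map (snd Z' Z) c ∈ geoSpace W w (Z'.prod Z)) ?_ ?_ ?_ ?_ hc
  · rw [map_zero]; exact Submodule.zero_mem _
  · intro x y hx hy; rw [map_add]; exact Submodule.add_mem _ hx hy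
  · intro t x hx; rw [map_smul]; exact Submodule.smul_mem _ t hx
  · intro T g a ha
    rw [map_snd_push]
    exact geo_of _ (W.map_mem _ ha)

lemma map_eq_graph (f : X ⟶ Y) (c : W.H Y) :
    W.map f c = W.push (fst X Y) (W.map (snd X Y) c * W.push (Obj.lift (𝟙 X) f) 1) := by
  rw [← Pool.Agent.Y129.algSpan_even (algSpan_push (Obj.lift (𝟙 X) f) one_mem_algSpan),
    ← W.push_mul, one_mul, ← W.push_comp, ← W.map_comp, Obj.lift_fst, Obj.lift_snd, W.push_id]

lemma geo_map (h : Resolves W) (f : X ⟶ Y) {c : W.H Y} (hc : c ∈ geoSpace W w Y) :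
    W.map f c ∈ geoSpace W w X := by
  rw [map_eq_graph]
  exact geo_push _ (geo_mul h (geo_map_snd hc) (algSpan_push _ one_mem_algSpan))

/-- The family. -/
noncomputable def geoFam (h : Resolves W) (w : ℕ) : Fam (algSys W) where
  N Z := geoSpace W w Z
  map f _ hc := geo_map h f hc
  push f _ hc := geo_push f hc
  mul hc hd := geo_mul h hc hd

/-- The part of degree `2 j + w` of the sum of the push-forwards. -/
lemma geo_proj {c : W.H Z} (hc : c ∈ geoSpace W w Z) (j : ℕ) :
    proj (W.isInternal Z) (2 * j + w) c ∈ geoConiveau W Z (2 * j + w) j := by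
  refine geo_ind (p := fun c => proj (W.isInternal Z) (2 * j + w) c ∈
    geoConiveau W Z (2 * j + w) j) ?_ ?_ ?_ ?_ hc
  · rw [map_zero]; exact Submodule.zero_mem _
  · intro x y hx hy; rw [map_add]; exact Submodule.add_mem _ hx hy
  · intro t x hx; rw [map_smul]; exact Submodule.smul_mem _ t hx
  · intro T g a ha
    have h1 := W.push_mem g ha
    by_cases h2 : T.dim + j = Z.dim
    · have h3 : (w : ℤ) + 2 * ((Z.dim : ℤ) - T.dim) = ((2 * j + w : ℕ) : ℤ) := by
        push_cast; omega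
      rw [h3, grZ_natCast] at h1
      rw [proj_same _ h1]
      exact geoCon_of g h2 (by omega) ha
    · by_cases h0 : 0 ≤ (w : ℤ) + 2 * ((Z.dim : ℤ) - T.dim)
      · obtain ⟨i', hi'⟩ := Int.eq_ofNat_of_zero_le h0
        rw [hi', grZ_natCast] at h1
        rw [proj_ne _ h1 (by omega)]
        exact Submodule.zero_mem _
      · rw [grZ_of_neg (by omega)] at h1
        rw [(Submodule.mem_bot _).1 h1, map_zero]
        exact Submodule.zero_mem _

end Pool.Agent.X312.Con
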