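import Pool.Agent.X312.RL.Pred

/-!
# The relative law for families of subspaces stable under correspondences
-/

open CategoryTheory AlgebraicGeometry

universe u v w

namespace Pool.Agent.X312.RL

open Module Polynomial
open Pool.Agent.H914 Pool.Agent.H914.VarClass Pool.Agent.H914.VarClass.Obj
  Pool.Agent.H914.WeilCohomology Pool.Agent.Y133.Half Pool.Agent.Y133.Half.Sys

variable {k : Type u} [Field k] {𝒱 : VarClass k} {ops : CycleOps 𝒱}
  {W : WeilCohomology.{u, v} ops} {X Y Z : 𝒱.Obj}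

/-- A family of subspaces of the cohomology which is stable under pull-backs, push-forwards and
products with the classes of the system `S`. -/
structure Fam (S : Sys W) where
  /-- the subspaces -/
  N : ∀ Z : 𝒱.Obj, Submodule W.K (W.H Z)
  map : ∀ {X Y : 𝒱.Obj} (f : X ⟶ Y) {c : W.H Y}, c ∈ N Y → W.map f c ∈ N X
  push : ∀ {X Y : 𝒱.Obj} (f : X ⟶ Y) {c : W.H X}, c ∈ N X → W.push f c ∈ N Y
  mul : ∀ {X : 𝒱.Obj} {c d : W.H X}, c ∈ N X → d ∈ S.C X → c * d ∈ N X

namespace Fam

variable {S : Sys W}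

/-- The operators given by the classes of the family. -/
noncomputable def Op (N : Fam S) (Y Z : 𝒱.Obj) : Submodule W.K (W.H Y →ₗ[W.K] W.H Z) :=
  (N.N (Y.prod Z)).map (corrL W Y Z)

lemma finrank_op (N : Fam S) (Y Z : 𝒱.Obj) :
    finrank W.K (N.Op Y Z) = finrank W.K (N.N (Y.prod Z)) :=
  (Submodule.equivMapOfInjective _ (corrL_injective Y Z) _).finrank_eq.symm

lemma stable (N : Fam S) (Y : 𝒱.Obj) : Stable (homOps S Y) (fun Z => N.Op Y Z) := by
  rintro X Z a ⟨ha, ha'⟩ x hx
  rw [ha']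
  obtain ⟨d, hd, hd'⟩ := mem_Op.1 ha
  obtain ⟨c, hc, rfl⟩ := Submodule.mem_map.1 hx
  rw [← hd']
  refine Submodule.mem_map.2 ⟨W.push (p13 Y X Z) (W.map (p12 Y X Z) c * W.map (p23 Y X Z) d),
    N.push _ (N.mul (N.map _ hc) (S.map _ hd)), ?_⟩
  exact corr_comp' c (S.even hd)

/-- **The relative law for stable families.** -/
theorem rel (N' N : Fam S) (hle : ∀ Z, N'.N Z ≤ N.N Z) (Y : 𝒱.Obj) {m : ℕ}
    (hne : N'.N (Y.prod (pw X m)) ≠ N.N (Y.prod (pw X m))) (n : ℕ) :
    (finrank W.K (N'.N (Y.prod (pw X n))) +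
      (1 - cst (finrank W.K (W.H X)) (m + 1) 2 n) * S.a (pw X n) ≤
        finrank W.K (N.N (Y.prod (pw X n)))) ∨
      ∀ T : Sys W, (2 : ℝ) * S.a (pw X n) ≤ finrank W.K (T.C (pw X n)) := by
  have hmono : finrank W.K (N'.N (Y.prod (pw X n))) ≤ finrank W.K (N.N (Y.prod (pw X n))) :=
    Submodule.finrank_mono (hle _)
  rcases S.exists_one_or X with ⟨l, hl, hl1⟩ | h0
  swap
  · left
    rw [h0, Nat.cast_zero, mul_zero, add_zero]
    exact_mod_cast hmono
  have hop : ∀ Z, N'.Op Y Z ≤ N.Op Y Z := fun Z => Submodule.map_mono (hle _)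
  have hne' : N'.Op Y (pw X m) ≠ N.Op Y (pw X m) := fun h =>
    hne (Submodule.map_injective_of_injective (corrL_injective Y (pw X m)) h)
  rcases (isMdl_hom S Y).bound hl hl1 (fun m => fine_hom S Y (pw X m)) (N'.stable Y) (N.stable Y)
    hop hne' (le_refl (2 : ℝ)) n inferInstance with h | h
  · left
    rw [finrank_op, finrank_op] at h
    exact h
  · exact Or.inr h

/-- The relative law for stable families, if homological and numerical equivalence agree. -/
theorem rel' (N' N : Fam S) (hle : ∀ Z, N'.N Z ≤ N.N Z) (Y : 𝒱.Obj) {m : ℕ}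
    (hne : N'.N (Y.prod (pw X m)) ≠ N.N (Y.prod (pw X m))) (n : ℕ) (hD : S.Num (pw X n) = ⊥) :
    finrank W.K (N'.N (Y.prod (pw X n))) +
      (1 - cst (finrank W.K (W.H X)) (m + 1) 2 n) * S.a (pw X n) ≤
        finrank W.K (N.N (Y.prod (pw X n))) := by
  rcases rel N' N hle Y hne n with h | h
  · exact h
  · have h1 := S.a_add_num (pw X n)
    rw [hD, finrank_bot, add_zero] at h1
    have h2 := h S
    rw [← h1] at h2
    have h3 : (S.a (pw X n) : ℝ) = 0 := by
      have : (0 : ℝ) ≤ S.a (pw X n) := Nat.cast_nonneg _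
      linarith
    rw [h3, mul_zero, add_zero]
    exact_mod_cast Submodule.finrank_mono (hle _)

end Fam

/-! ## Push-forwards of the classes of degree `w` -/

lemma map_snd_push {Z' : 𝒱.Obj} (g : Y ⟶ Z) (a : W.H Y) :
    W.map (snd Z' Z) (W.push g a) =
      W.push (Obj.lift (fst Z' Y) (snd Z' Y ≫ g)) (W.map (snd Z' Y) a) := by
  apply W.tr_ext
  intro c
  rw [W.tr_push]
  refine W.kunneth_induction (p := fun c => W.tr (Z'.prod Z) (W.map (snd Z' Z) (W.push g a) * c) =
    W.tr (Z'.prod Y) (W.map (snd Z' Y) a *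
      W.map (Obj.lift (fst Z' Y) (snd Z' Y ≫ g)) c)) ?_ ?_ c
  · intro x y hx hy
    rw [mul_add, map_add, hx, hy, map_add, mul_add, map_add]
  · intro i j x hx y hy
    rw [map_mul (W.map (Obj.lift (fst Z' Y) (snd Z' Y ≫ g))), ← W.map_comp, ← W.map_comp,
      Obj.lift_fst, Obj.lift_snd, W.map_comp]
    have key : ∀ (Q : 𝒱.Obj) (s : W.H Q) (t : W.H Q),
        W.tr (Z'.prod Q) (W.map (snd Z' Q) s * (W.map (fst Z' Q) x * W.map (snd Z' Q) t)) =
          W.tr Z' x * W.tr Q (s * t) := by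
      intro Q s t
      refine gr_induction (W.isInternal Q) (p := fun s => W.tr (Z'.prod Q)
        (W.map (snd Z' Q) s * (W.map (fst Z' Q) x * W.map (snd Z' Q) t)) =
          W.tr Z' x * W.tr Q (s * t)) ?_ ?_ s
      · intro l s hs
        have h1 := W.comm (W.map_mem (snd Z' Q) hs) (W.map_mem (fst Z' Q) hx)
        rw [← mul_assoc, h1, smul_mul_assoc, map_smul, mul_assoc, ← map_mul (W.map (snd Z' Q)),
          W.tr_prod, smul_eq_mul]
        by_cases hi : i = 2 * Z'.dim
        · rw [hi, show l * (2 * Z'.dim) = 2 * (l * Z'.dim) by ring, pow_mul, neg_one_sq, one_pow,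
            one_mul]
        · rw [W.tr_eq_zero hx hi, zero_mul, mul_zero]
      · intro a b ha hb
        rw [map_add, add_mul, map_add, ha, hb, add_mul, map_add, mul_add]
    rw [key, key, W.tr_push]

end Pool.Agent.X312.RL
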