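import Pool.Agent.Y133.Half.HalfDefs
import Pool.Agent.Y133.Half.DDefs
import Pool.Agent.H914R2.KDefs

/-!
# Galois actions on the cohomology of varieties over an algebraically closed field: definitions
-/

open CategoryTheory AlgebraicGeometry

universe u v w

namespace Pool.Agent.X312.Gal

open Pool.Agent.H914 Pool.Agent.H914.VarClass Pool.Agent.H914.VarClass.Obj
  Pool.Agent.H914.WeilCohomology
open Pool.Agent.Y133.Half (dimOf)

/-- The statement `p g` holds for all `g` in a subgroup of finite index. -/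
def Potentially {Γ : Type w} [Group Γ] (p : Γ → Prop) : Prop :=
  ∃ Δ : Subgroup Γ, Δ.FiniteIndex ∧ ∀ g ∈ Δ, p g

section Alg

variable {K : Type*} [Field K] {A B : Type*} [Ring A] [Algebra K A] [Ring B] [Algebra K B]
  {Γ : Type w} [Group Γ]

/-- The map `ρ` is multiplicative on a subgroup of finite index. -/
def RespMul (ρ : Γ → (A ≃ₐ[K] A)) : Prop :=
  ∃ Δ : Subgroup Γ, Δ.FiniteIndex ∧ ∀ g ∈ Δ, ∀ h ∈ Δ, ∀ a, ρ (g * h) a = ρ g (ρ h a)

/-- The automorphisms preserve the degrees. -/
def RespGr (gr : ℕ → Submodule K A) (ρ : Γ → (A ≃ₐ[K] A)) : Prop :=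
  ∀ i, Potentially fun g => ∀ a ∈ gr i, ρ g a ∈ gr i

/-- The automorphisms multiply the orientation `t` by `χ ^ d`. -/
def RespTr (χ : Γ →* Kˣ) (d : ℕ) (t : A →ₗ[K] K) (ρ : Γ → (A ≃ₐ[K] A)) : Prop :=
  Potentially fun g => ∀ a, t (ρ g a) = (χ g : K) ^ d * t a

/-- The element `c` is multiplied by `χ ^ j`, on a subgroup of finite index. -/
def IsEigen (χ : Γ →* Kˣ) (ρ : Γ → (A ≃ₐ[K] A)) (j : ℕ) (c : A) : Prop :=
  Potentially fun g => ρ g c = (χ g : K) ^ j • c

/-- The homomorphism `f` is equivariant for a subgroup of finite index. -/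
def IsEquivariant (f : B →ₐ[K] A) (ρ' : Γ → (B ≃ₐ[K] B)) (ρ : Γ → (A ≃ₐ[K] A)) : Prop :=
  Potentially fun g => ∀ b, f (ρ' g b) = ρ g (f b)

end Alg

variable {k : Type u} [Field k] {𝒱 : VarClass k} {ops : CycleOps 𝒱}

/-- Galois actions on the cohomology of the varieties of the class `𝒱`. In the intended use `k` is an
algebraic closure of a field `k₁` finitely generated over `ℚ`, `Γ` is the Galois group of `k` over
`k₁`, the varieties are the smooth projective varieties over `k`, `W` is the `ℓ`-adic cohomology and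
`χ` is the inverse of the cyclotomic character. Every variety `Z` over `k` has a model over a finite
extension of `k₁` in `k`, whose Galois group acts on `H(Z)`; so `ρ Z g` is meaningful for `g` in a
subgroup of finite index (and may be put equal to the identity for the other elements), it is there an
action by graded automorphisms of the algebra `H(Z)`, it is compatible with the orientation, it is
compatible with a given morphism for `g` in a subgroup of finite index, and it maps the class of a given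
cycle of codimension `j` to its multiple by `χ g ^ j` for `g` in a subgroup of finite index. -/
structure GaloisAction (W : WeilCohomology.{u, v} ops) (Γ : Type w) [Group Γ] where
  /-- the effect on the Tate twist -/
  χ : Γ →* W.Kˣ
  /-- the action -/
  ρ : ∀ Z : 𝒱.Obj, Γ → (W.H Z ≃ₐ[W.K] W.H Z)
  mul : ∀ Z, RespMul (ρ Z)
  gr : ∀ Z, RespGr (W.gr Z) (ρ Z)
  tr : ∀ Z, RespTr χ Z.dim (W.tr Z) (ρ Z)
  map : ∀ {Y Z : 𝒱.Obj} (f : Y ⟶ Z), IsEquivariant (W.map f) (ρ Z) (ρ Y)
  cl : ∀ Z j, ∀ c ∈ algClasses W Z j, IsEigen χ (ρ Z) j c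

variable {W : WeilCohomology.{u, v} ops} {Γ : Type w} [Group Γ]

/-- The Tate classes of codimension `j`: the classes in `H^(2 j)(Z)(j)` fixed by an open subgroup. -/
def IsTate (G : GaloisAction W Γ) (Z : 𝒱.Obj) (j : ℕ) (c : W.H Z) : Prop :=
  c ∈ W.gr Z (2 * j) ∧ IsEigen G.χ (G.ρ Z) j c

/-- The Tate conjecture for `Z` in codimension `j`. -/
def TateConj (G : GaloisAction W Γ) (Z : 𝒱.Obj) (j : ℕ) : Prop :=
  ∀ c, IsTate G Z j c → c ∈ spanCycles W Z j

/-- The dimension of the space of the Tate classes of all codimensions on `Z`. -/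
noncomputable def tateDim (G : GaloisAction W Γ) (Z : 𝒱.Obj) : ℕ :=
  dimOf W {c | ∃ j, IsTate G Z j c}

end Pool.Agent.X312.Gal
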