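import Pool.Agent.X312.RL.Pred
import Pool.Agent.X312.RL.GalDefs

/-!
# The relative law for Tate classes
-/

open CategoryTheory AlgebraicGeometry

universe u v w

namespace Pool.Agent.X312.Gal

open Module
open Pool.Agent.H914 Pool.Agent.H914.VarClass Pool.Agent.H914.VarClass.Obj
  Pool.Agent.H914.WeilCohomology Pool.Agent.Y133.Half Pool.Agent.H281R3.HT
  Pool.Agent.W458.MF Pool.Agent.W536.RR

variable {k : Type u} [Field k] {𝒱 : VarClass k} {ops : CycleOps 𝒱}
  {W : WeilCohomology.{u, v} ops} {Γ : Type w} [Group Γ]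

lemma Potentially.of {p : Γ → Prop} (h : ∀ g, p g) : Potentially p :=
  ⟨⊤, inferInstance, fun g _ => h g⟩

lemma Potentially.and {p q : Γ → Prop} (hp : Potentially p) (hq : Potentially q) :
    Potentially fun g => p g ∧ q g := by
  obtain ⟨Δ, hΔ, h1⟩ := hp
  obtain ⟨Δ', hΔ', h2⟩ := hq
  exact ⟨Δ ⊓ Δ', inferInstance, fun g hg => ⟨h1 g hg.1, h2 g hg.2⟩⟩

lemma Potentially.imp {p q : Γ → Prop} (hp : Potentially p) (h : ∀ g, p g → q g) :
    Potentially q := by
  obtain ⟨Δ, hΔ, h1⟩ := hp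
  exact ⟨Δ, hΔ, fun g hg => h g (h1 g hg)⟩

variable (G : GaloisAction W Γ)

/-- The Tate classes. -/
noncomputable def tatePred : ClassPred W where
  P := IsTate G
  gr h := h.1
  zero {Z j} := ⟨Submodule.zero_mem _, Potentially.of fun g => by rw [map_zero, smul_zero]⟩
  add {Z j a b} ha hb := ⟨Submodule.add_mem _ ha.1 hb.1, (Potentially.and ha.2 hb.2).imp fun g h => by
    rw [map_add, h.1, h.2, smul_add]⟩
  smul {Z j} r a ha := ⟨Submodule.smul_mem _ _ ha.1, Potentially.imp ha.2 fun g h => by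
    rw [map_smul, h, smul_comm]⟩
  cl {Z j z} hz := ⟨W.cl_mem hz, G.cl Z j _ ⟨z, hz, rfl⟩⟩
  mul {Z i j a b} ha hb := by
    refine ⟨?_, (Potentially.and ha.2 hb.2).imp fun g h => ?_⟩
    · have := W.mul_mem ha.1 hb.1
      rwa [show 2 * i + 2 * j = 2 * (i + j) by ring] at this
    · rw [map_mul, h.1, h.2, smul_mul_smul_comm, ← pow_add]
  map {Y Z} f j a ha := ⟨W.map_mem f ha.1, (Potentially.and ha.2 (G.map f)).imp fun g h => by
    rw [← h.2, h.1, map_smul]⟩
  push {Y Z} f j l hl a ha := by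
    refine ⟨?_, ?_⟩
    · have h2 := W.push_mem f ha.1
      have e1 : ((2 * j : ℕ) : ℤ) + 2 * ((Z.dim : ℤ) - Y.dim) = ((2 * l : ℕ) : ℤ) := by
        push_cast; omega
      rw [e1, grZ_natCast] at h2
      exact h2
    · refine (Potentially.and ha.2 (Potentially.and (G.map f) (Potentially.and (G.tr Z) (G.tr Y)))).imp fun g h => ?_
      obtain ⟨h1, h2, h3, h4⟩ := h
      have hχ : (G.χ g : W.K) ≠ 0 := (G.χ g).ne_zero
      rw [← sub_eq_zero]
      apply W.nondeg
      intro b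
      rw [sub_mul, map_sub, sub_eq_zero, smul_mul_assoc, map_smul, smul_eq_mul, W.tr_push]
      obtain ⟨b', rfl⟩ := (G.ρ Z g).surjective b
      rw [← map_mul, h3, W.tr_push, h2]
      have h5 := h4 (a * W.map f b')
      rw [map_mul, h1, smul_mul_assoc, map_smul, smul_eq_mul] at h5
      -- `χ ^ j tr (a ρ(f b')) = χ ^ dim Y tr (a f b')`
      apply mul_left_cancel₀ (pow_ne_zero Y.dim hχ)
      calc (G.χ g : W.K) ^ Y.dim * ((G.χ g : W.K) ^ Z.dim * W.tr Y (a * W.map f b'))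
          = (G.χ g : W.K) ^ Z.dim * ((G.χ g : W.K) ^ Y.dim * W.tr Y (a * W.map f b')) := by ring
        _ = (G.χ g : W.K) ^ Z.dim * ((G.χ g : W.K) ^ j *
              W.tr Y (a * (G.ρ Y g) (W.map f b'))) := by rw [h5]
        _ = (G.χ g : W.K) ^ (j + Z.dim) * W.tr Y (a * (G.ρ Y g) (W.map f b')) := by
            rw [pow_add]; ring
        _ = (G.χ g : W.K) ^ (l + Y.dim) * W.tr Y (a * (G.ρ Y g) (W.map f b')) := by rw [hl]
        _ = _ := by rw [pow_add]; ring

/-- **The relative law for Tate classes.** -/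
theorem tate_rel (X Y : 𝒱.Obj) (m : ℕ) :
    ((∀ j, TateConj G (Y.prod (pw X m)) j) ∧ HomEqNum W (Y.prod (pw X m))) ∨
    ∀ n, (cycRank ops (Y.prod (pw X n)) : ℝ) +
      (1 - Pool.Agent.X312.RL.cst (finrank W.K (W.H X)) (m + 1) 2 n) * cycRank ops (pw X n) ≤
        tateDim G (Y.prod (pw X n)) := by
  rcases Pool.Agent.X312.RL.pred_rel (tatePred G) X Y m with h | h
  · exact Or.inl ⟨fun j c hc => h.1 j c hc, h.2⟩
  · exact Or.inr h

end Pool.Agent.X312.Gal
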