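import Pool.Agent.X312.RL.ConivDefs
import Pool.Agent.W534.TateDefs

/-!
# The generalized Tate conjecture over finite fields: definitions
-/

open CategoryTheory AlgebraicGeometry

universe u v w

namespace Pool.Agent.X312.Gtc

open Pool.Agent.H914 Pool.Agent.H914.VarClass Pool.Agent.H914.VarClass.Obj
  Pool.Agent.H914.WeilCohomology Pool.Agent.X312.Con Pool.Agent.W534

section Alg

variable {K : Type*} [Field K] {A : Type*} [Ring A] [Algebra K A]

/-- The operator `q ^ (- ν) φ` is integral on the element `x`: a monic polynomial with integer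
coefficients in this operator kills `x`. (Equivalently: `x` is contained in a `φ`-stable subspace of
finite dimension such that `α / q ^ ν` is an algebraic integer for all eigenvalues `α` of `φ` on it.) -/
def TwistedIntegral (q : K) (ν : ℤ) (φ : A →ₐ[K] A) (x : A) : Prop :=
  ∃ P : Polynomial ℤ, P.Monic ∧
    Polynomial.aeval (q ^ (-ν) • φ.toLinearMap : Module.End K A) P x = 0

end Alg

variable {k : Type u} [Field k] {𝒱 : VarClass k} {ops : CycleOps 𝒱}
  {W : WeilCohomology.{u, v} ops} {p : ℕ}

/-- The class `x` is contained in a subspace of `H(Z)` which is stable under the Frobenius endomorphism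
relative to some finite field with `q` elements, all eigenvalues of which on this subspace are
algebraic integers times `q ^ ν`. Here `q = p ^ (e Z * s)`. -/
def IsDivisible (Φ : FrobSystem W p) (Z : 𝒱.Obj) (ν : ℤ) (x : W.H Z) : Prop :=
  ∃ s, 0 < s ∧ TwistedIntegral ((p : W.K) ^ (Φ.e Z * s)) ν (W.map (iter (Φ.Fr Z) s)) x

/-- The eigenvalues of Frobenius are algebraic integers (Deligne). -/
def FrobIntegral (Φ : FrobSystem W p) : Prop :=
  ∀ (Z : 𝒱.Obj) (i : ℕ), ∀ x ∈ W.gr Z i, IsDivisible Φ Z 0 x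

/-- The set of the classes of degree `i` with `i = w + 2 ν` which are divisible by `q ^ ν`. -/
def galSet (Φ : FrobSystem W p) (w : ℕ) (Z : 𝒱.Obj) : Set (W.H Z) :=
  {x | ∃ (i : ℕ) (ν : ℤ), (i : ℤ) = w + 2 * ν ∧ x ∈ W.gr Z i ∧ IsDivisible Φ Z ν x}

/-- The sum of the spaces `N_ℓ ^ ν H ^ i (Z)` of the generalized Tate conjecture for all `i` and `ν` with
`i = 2 ν + w`. -/
def galSpace (Φ : FrobSystem W p) (w : ℕ) (Z : 𝒱.Obj) : Submodule W.K (W.H Z) :=
  Submodule.span W.K (galSet Φ w Z)

/-- **The generalized Tate conjecture in level `w`** for `Z`: for all `i`, `j` with `i = 2 j + w`, the space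
`N_ℓ ^ j H ^ i (Z)` is contained in `N ^ j H ^ i (Z)`. -/
def GTCLevel (Φ : FrobSystem W p) (w : ℕ) (Z : 𝒱.Obj) : Prop :=
  ∀ i j : ℕ, i = 2 * j + w → ∀ x ∈ W.gr Z i, IsDivisible Φ Z j x → x ∈ geoConiveau W Z i j

end Pool.Agent.X312.Gtc
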