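import Pool.Agent.X312.RL.Coniv
import Pool.Agent.X312.RL.GtcDefs

/-!
# The relative law for the generalized Tate conjecture over finite fields, level by level
-/

open CategoryTheory AlgebraicGeometry

universe u v w

namespace Pool.Agent.X312.Gtc

open Module Polynomial
open Pool.Agent.H914 Pool.Agent.H914.VarClass Pool.Agent.H914.VarClass.Obj
  Pool.Agent.H914.WeilCohomology Pool.Agent.Y133.Half Pool.Agent.Y133.Half.Sys
  Pool.Agent.X312.RL Pool.Agent.H281R3.HT Pool.Agent.W536.RR Pool.Agent.X312.Con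
  Pool.Agent.W534 Pool.Agent

section Alg

/-- Powers of the root of a monic integral polynomial. -/
lemma exists_monic_pow (P : ℤ[X]) (hP : P.Monic) (a : ℕ) :
    ∃ Q : ℤ[X], Q.Monic ∧ P ∣ Q.comp (X ^ a) := by
  have h1 : IsIntegral ℤ (AdjoinRoot.root P) := AdjoinRoot.isIntegral_root' hP
  obtain ⟨Q, hQ, h2⟩ := h1.pow a
  refine ⟨Q, hQ, ?_⟩
  rw [← AdjoinRoot.mk_eq_zero, ← AdjoinRoot.aeval_eq, Polynomial.aeval_comp]
  rw [map_pow, Polynomial.aeval_X]
  exact h2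

variable {K : Type*} [Field K] {A B : Type*} [Ring A] [Algebra K A] [Ring B] [Algebra K B]

lemma TwistedIntegral.pow {q : K} {ν : ℤ} {φ φ' : A →ₐ[K] A} {x : A}
    (h : TwistedIntegral q ν φ x) (a : ℕ) (hφ : ∀ y, φ' y = φ^[a] y) :
    TwistedIntegral (q ^ a) ν φ' x := by
  obtain ⟨P, hP, h1⟩ := h
  obtain ⟨Q, hQ, R, hR⟩ := exists_monic_pow P hP a
  refine ⟨Q, hQ, ?_⟩
  have h2 : ((q ^ a) ^ (-ν) • φ'.toLinearMap : Module.End K A) =
      (q ^ (-ν) • φ.toLinearMap : Module.End K A) ^ a := by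
    rw [_root_.smul_pow]
    have h3 : (q ^ a) ^ (-ν) = (q ^ (-ν)) ^ a := by
      rw [← zpow_natCast, ← zpow_natCast, ← zpow_mul, ← zpow_mul, mul_comm]
    rw [h3]
    congr 1
    apply LinearMap.ext
    intro y
    rw [Module.End.pow_apply]
    exact hφ y
  have h4 : aeval (q ^ (-ν) • φ.toLinearMap : Module.End K A) (Q.comp (X ^ a)) x = 0 := by
    rw [hR, mul_comm, map_mul, Module.End.mul_apply, h1, map_zero]
  rw [Polynomial.aeval_comp, map_pow, Polynomial.aeval_X] at h4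
  rw [h2]
  exact h4

lemma TwistedIntegral.map {q : K} (hq : q ≠ 0) {ν ν' : ℤ} {φ : A →ₐ[K] A} {φ' : B →ₐ[K] B}
    {θ : A →ₗ[K] B} (hθ : ∀ y, θ (φ y) = q ^ (ν - ν') • φ' (θ y)) {x : A}
    (h : TwistedIntegral q ν φ x) : TwistedIntegral q ν' φ' (θ x) := by
  obtain ⟨P, hP, h1⟩ := h
  refine ⟨P, hP, ?_⟩
  have h2 : ∀ y, θ ((q ^ (-ν) • φ.toLinearMap : Module.End K A) y) =
      (q ^ (-ν') • φ'.toLinearMap : Module.End K B) (θ y) := by
    intro y
    change θ (q ^ (-ν) • φ y) = q ^ (-ν') • φ' (θ y)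
    rw [map_smul, hθ, smul_smul, ← zpow_add₀ hq]
    congr 2
    ring
  have h3 : ∀ (P : ℤ[X]) (y : A), θ (aeval (q ^ (-ν) • φ.toLinearMap : Module.End K A) P y) =
      aeval (q ^ (-ν') • φ'.toLinearMap : Module.End K B) P (θ y) := by
    intro P
    induction P using Polynomial.induction_on' with
    | add p q hp hq =>
      intro y
      rw [map_add, map_add, LinearMap.add_apply, map_add, hp, hq, LinearMap.add_apply]
    | monomial n c =>
      intro y
      have h5 : ∀ (n : ℕ) (y : A), θ (((q ^ (-ν) • φ.toLinearMap : Module.End K A) ^ n) y) =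
          ((q ^ (-ν') • φ'.toLinearMap : Module.End K B) ^ n) (θ y) := by
        intro n
        induction n with
        | zero => intro y; rfl
        | succ n ih =>
          intro y
          rw [pow_succ, pow_succ, Module.End.mul_apply, Module.End.mul_apply, ih, h2]
      rw [← Polynomial.smul_X_eq_monomial, map_smul, map_smul, map_pow, map_pow, aeval_X, aeval_X,
        LinearMap.smul_apply, LinearMap.smul_apply, map_zsmul, h5]
  rw [← h3, h1, map_zero]

end Alg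

variable {k : Type u} [Field k] {𝒱 : VarClass k} {ops : CycleOps 𝒱}
  {W : WeilCohomology.{u, v} ops} {p : ℕ} {Φ : FrobSystem W p} {X Y Z : 𝒱.Obj} {w : ℕ}

lemma IsDivisible.at {ν : ℤ} {x : W.H Z} (h : IsDivisible Φ Z ν x) :
    ∃ s, 0 < s ∧ ∀ a, TwistedIntegral ((p : W.K) ^ (Φ.e Z * (s * a))) ν
      (W.map (W534.iter (Φ.Fr Z) (s * a))) x := by
  obtain ⟨s, hs, h⟩ := h
  refine ⟨s, hs, fun a => ?_⟩
  have h1 := h.pow (φ' := W.map (W534.iter (Φ.Fr Z) (s * a))) a (fun y => map_iter_mul _ _ _ _)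
  rwa [← pow_mul, mul_assoc] at h1

lemma IsDivisible.map (f : X ⟶ Y) {ν : ℤ} {x : W.H Y} (h : IsDivisible Φ Y ν x) :
    IsDivisible Φ X ν (W.map f x) := by
  obtain ⟨s, hs, h⟩ := h.at
  obtain ⟨a, b, ha, hb, hab, hc⟩ := frob_comm Φ f
  refine ⟨a * s, Nat.mul_pos ha hs, ?_⟩
  have h1 := h b
  have hq : (p : W.K) ^ (Φ.e Y * (s * b)) = (p : W.K) ^ (Φ.e X * (a * s)) := by
    congr 1
    calc Φ.e Y * (s * b) = (b * Φ.e Y) * s := by ring
      _ = (a * Φ.e X) * s := by rw [hab]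
      _ = _ := by ring
  rw [hq] at h1
  refine TwistedIntegral.map (θ := (W.map f).toLinearMap) (pow_ne_zero _ (cast_p_ne Φ)) ?_ h1
  intro y
  rw [sub_self, zpow_zero, one_smul, mul_comm s b]
  exact (hc s y).symm

lemma IsDivisible.push (f : X ⟶ Y) {ν : ℤ} {x : W.H X} (h : IsDivisible Φ X ν x) :
    IsDivisible Φ Y (ν + (Y.dim - X.dim)) (W.push f x) := by
  obtain ⟨s, hs, h⟩ := h.at
  obtain ⟨a, b, ha, hb, hab, hc⟩ := frob_comm Φ f
  refine ⟨b * s, Nat.mul_pos hb hs, ?_⟩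
  have h1 := h a
  have hab' : s * a * Φ.e X = b * s * Φ.e Y := by
    calc s * a * Φ.e X = (a * Φ.e X) * s := by ring
      _ = _ := by rw [hab]; ring
  have hq : (p : W.K) ^ (Φ.e X * (s * a)) = (p : W.K) ^ (Φ.e Y * (b * s)) := by
    congr 1
    rw [mul_comm, hab', mul_comm]
  rw [hq] at h1
  have hne : (p : W.K) ^ (Φ.e Y * (b * s)) ≠ 0 := pow_ne_zero _ (cast_p_ne Φ)
  refine TwistedIntegral.map (θ := W.push f) hne ?_ h1
  intro y
  have h4 := Pool.Agent.Y133.Half.push_frob (Φ := Φ) f hab'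
    (fun y => by rw [mul_comm s a]; exact hc s y) y
  have h5 : (card Φ Y (b * s) : W.K) = (p : W.K) ^ (Φ.e Y * (b * s)) := by
    rw [card]; push_cast; rfl
  rw [h5] at h4
  generalize (p : W.K) ^ (Φ.e Y * (b * s)) = q at h4 hne
  have h6 : q ^ (ν - (ν + ((Y.dim : ℤ) - X.dim))) = (q ^ Y.dim)⁻¹ * q ^ X.dim := by
    rw [show ν - (ν + ((Y.dim : ℤ) - X.dim)) = -(Y.dim : ℤ) + X.dim by ring, zpow_add₀ hne,
      zpow_neg, zpow_natCast, zpow_natCast]
  rw [h6, mul_smul, ← h4, smul_smul, inv_mul_cancel₀ (pow_ne_zero _ hne), one_smul]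

lemma IsDivisible.mul {j : ℕ} {z : Z.Cycles} (hz : Z.IsCyc j z) {ν : ℤ} {x : W.H Z}
    (h : IsDivisible Φ Z ν x) : IsDivisible Φ Z (ν + j) (x * W.cl Z z) := by
  obtain ⟨s, hs, h⟩ := h.at
  obtain ⟨t, ht, hc⟩ := Φ.cyc hz
  refine ⟨s * t, Nat.mul_pos hs ht, ?_⟩
  have hne : (p : W.K) ^ (Φ.e Z * (s * t)) ≠ 0 := pow_ne_zero _ (cast_p_ne Φ)
  refine TwistedIntegral.map (θ := LinearMap.mulRight W.K (W.cl Z z)) hne ?_ (h t)
  intro y
  have h1 := frob_mul' Φ hc s
  change W.map _ y * W.cl Z z = _ • W.map _ (y * W.cl Z z)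
  rw [map_mul, h1, mul_smul_comm, smul_smul]
  have h2 : ((p : W.K) ^ (Φ.e Z * (s * t))) ^ (ν - (ν + j)) *
      (p : W.K) ^ (Φ.e Z * (s * t) * j) = 1 := by
    rw [pow_mul (p : W.K) (Φ.e Z * (s * t)) j, ← zpow_natCast _ j, ← zpow_add₀ hne]
    rw [show ν - (ν + j) + (j : ℤ) = 0 by ring, zpow_zero]
  rw [h2, one_smul]

lemma gal_ind {P : W.H Z → Prop} (h0 : P 0) (hadd : ∀ a b, P a → P b → P (a + b))
    (hsmul : ∀ (t : W.K) a, P a → P (t • a))
    (h : ∀ (i : ℕ) (ν : ℤ), (i : ℤ) = w + 2 * ν → ∀ x ∈ W.gr Z i, IsDivisible Φ Z ν x → P x)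
    {c : W.H Z} (hc : c ∈ galSpace Φ w Z) : P c := by
  induction hc using Submodule.span_induction with
  | mem x hx =>
    obtain ⟨i, ν, hi, hx, hd⟩ := hx
    exact h i ν hi x hx hd
  | zero => exact h0
  | add x y _ _ hx hy => exact hadd x y hx hy
  | smul t x _ hx => exact hsmul t x hx

lemma gal_of {i : ℕ} {ν : ℤ} (hi : (i : ℤ) = w + 2 * ν) {x : W.H Z} (hx : x ∈ W.gr Z i)
    (hd : IsDivisible Φ Z ν x) : x ∈ galSpace Φ w Z :=
  Submodule.subset_span ⟨i, ν, hi, hx, hd⟩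

lemma gal_map (f : X ⟶ Y) {c : W.H Y} (hc : c ∈ galSpace Φ w Y) :
    W.map f c ∈ galSpace Φ w X := by
  refine gal_ind (Φ := Φ) (P := fun c => W.map f c ∈ galSpace Φ w X) ?_ ?_ ?_ ?_ hc
  · rw [map_zero]; exact Submodule.zero_mem _
  · intro a b ha hb; rw [map_add]; exact Submodule.add_mem _ ha hb
  · intro t a ha; rw [map_smul]; exact Submodule.smul_mem _ _ ha
  · intro i ν hi x hx hd
    exact gal_of hi (W.map_mem f hx) (hd.map f)

lemma gal_push (f : X ⟶ Y) {c : W.H X} (hc : c ∈ galSpace Φ w X) :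
    W.push f c ∈ galSpace Φ w Y := by
  refine gal_ind (Φ := Φ) (P := fun c => W.push f c ∈ galSpace Φ w Y) ?_ ?_ ?_ ?_ hc
  · rw [map_zero]; exact Submodule.zero_mem _
  · intro a b ha hb; rw [map_add]; exact Submodule.add_mem _ ha hb
  · intro t a ha; rw [map_smul]; exact Submodule.smul_mem _ _ ha
  · intro i ν hi x hx hd
    have h1 := W.push_mem f hx
    by_cases h0 : 0 ≤ (i : ℤ) + 2 * ((Y.dim : ℤ) - X.dim)
    · obtain ⟨i', hi'⟩ := Int.eq_ofNat_of_zero_le h0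
      rw [hi', grZ_natCast] at h1
      exact gal_of (by rw [← hi', hi]; ring) h1 (hd.push f)
    · rw [grZ_of_neg (by omega)] at h1
      rw [(Submodule.mem_bot _).1 h1]
      exact Submodule.zero_mem _

lemma gal_mul {c d : W.H Z} (hc : c ∈ galSpace Φ w Z) (hd : d ∈ algSpan W Z) :
    c * d ∈ galSpace Φ w Z := by
  refine algSpan_induction (p := fun d => c * d ∈ galSpace Φ w Z) ?_ ?_ ?_ ?_ hd
  · rw [mul_zero]; exact Submodule.zero_mem _
  · intro a b ha hb; rw [mul_add]; exact Submodule.add_mem _ ha hb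
  · intro t a ha; rw [mul_smul_comm]; exact Submodule.smul_mem _ _ ha
  intro j z hz
  refine gal_ind (Φ := Φ) (P := fun c => c * W.cl Z z ∈ galSpace Φ w Z) ?_ ?_ ?_ ?_ hc
  · rw [zero_mul]; exact Submodule.zero_mem _
  · intro a b ha hb; rw [add_mul]; exact Submodule.add_mem _ ha hb
  · intro t a ha; rw [smul_mul_assoc]; exact Submodule.smul_mem _ _ ha
  · intro i ν hi x hx hd
    refine gal_of (i := i + 2 * j) (ν := ν + j) ?_ (W.mul_mem hx (W.cl_mem hz)) (hd.mul hz)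
    push_cast
    rw [hi]
    ring

/-- The family. -/
noncomputable def galFam (Φ : FrobSystem W p) (w : ℕ) : Fam (algSys W) where
  N Z := galSpace Φ w Z
  map f _ hc := gal_map f hc
  push f _ hc := gal_push f hc
  mul hc hd := gal_mul hc hd

lemma geo_le_gal (hΦ : FrobIntegral Φ) (w : ℕ) (Z : 𝒱.Obj) : geoSpace W w Z ≤ galSpace Φ w Z := by
  rw [geoSpace_eq]
  refine Submodule.span_le.2 ?_
  rintro _ ⟨T, f, a, ha, rfl⟩
  exact gal_push f (gal_of (ν := 0) (by ring) ha (hΦ T w a ha))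

lemma level_of_eq (h : geoSpace W w Z = galSpace Φ w Z) : GTCLevel Φ w Z := by
  rintro i j rfl x hx hd
  have h1 : x ∈ geoSpace W w Z := by
    rw [h]
    exact gal_of (by push_cast; ring) hx hd
  have h2 := geo_proj h1 j
  rwa [proj_same _ hx] at h2

/-- **The relative law for the generalized Tate conjecture in level `w`.** -/
theorem gtc_rel (Φ : FrobSystem W p) (hΦ : FrobIntegral Φ) (hres : Resolves W) (w : ℕ)
    (X Y : 𝒱.Obj) (m : ℕ) :
    GTCLevel Φ w (Y.prod (pw X m)) ∨ ∀ n, HomEqNum W (pw X n) →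
      (finrank W.K (geoSpace W w (Y.prod (pw X n))) : ℝ) +
        (1 - cst (finrank W.K (W.H X)) (m + 1) 2 n) * cycRank ops (pw X n) ≤
          finrank W.K (galSpace Φ w (Y.prod (pw X n))) := by
  by_cases hne : geoSpace W w (Y.prod (pw X m)) = galSpace Φ w (Y.prod (pw X m))
  · exact Or.inl (level_of_eq hne)
  · right
    intro n hn
    have h := Fam.rel' (geoFam hres w) (galFam Φ w) (geo_le_gal hΦ w) Y hne n
      ((alg_num_eq_bot_iff _).2 hn)
    rw [numDim_eq_cycRank] at h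
    exact h

end Pool.Agent.X312.Gtc
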