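import Pool.Agent.X312.RL.Lower

/-!
# Ideals of operators whose span contains the identity
-/

open CategoryTheory AlgebraicGeometry

universe u v w

namespace Pool.Agent.X312.RL

open Module Polynomial
open Pool.Agent.H914 Pool.Agent.H914.VarClass Pool.Agent.H914.VarClass.Obj
  Pool.Agent.H914.WeilCohomology Pool.Agent.Y133.Half Pool.Agent.Y133.Half.Sys

variable {k : Type u} [Field k] {𝒱 : VarClass k} {ops : CycleOps 𝒱}
  {W : WeilCohomology.{u, v} ops} {F : Type w} [Field F] {V : 𝒱.Obj → Type w}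
  [∀ X, AddCommGroup (V X)] [∀ X, Module F (V X)]

lemma one_sub_idem {A : Type*} [Ring A] {e : A} (h : e * e = e) : (1 - e) * (1 - e) = 1 - e := by
  rw [sub_mul, mul_sub, mul_sub, h, one_mul, one_mul, mul_one, sub_self, sub_zero]

/-- The set `I` of pairs of operators is an ideal. -/
structure IsIdl (R : Ops W F V) (P : 𝒱.Obj) (I : Set ((V P →ₗ[F] V P) × (W.H P →ₗ[W.K] W.H P))) :
    Prop where
  le : ∀ a ∈ I, a ∈ R P P
  zero : (0, 0) ∈ I
  add : ∀ a ∈ I, ∀ b ∈ I, (a.1 + b.1, a.2 + b.2) ∈ I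
  left : ∀ a ∈ R P P, ∀ b ∈ I, (a.1 ∘ₗ b.1, a.2 ∘ₗ b.2) ∈ I
  right : ∀ a ∈ I, ∀ b ∈ R P P, (a.1 ∘ₗ b.1, a.2 ∘ₗ b.2) ∈ I

namespace IsMdl

variable {S : Sys W} {σ : F →+* W.K} {R : Ops W F V} (h : IsMdl S σ R)
include h

lemma idl_aux {P : 𝒱.Obj} (hf : Fine σ R P)
    {I : Set ((V P →ₗ[F] V P) × (W.H P →ₗ[W.K] W.H P))} (hI : IsIdl R P I)
    (hspan : LinearMap.id ∈ Submodule.span W.K (Prod.snd '' I)) (n : ℕ) :
    ∀ (e : Module.End F (V P)) (ε : Module.End W.K (W.H P)), (e, ε) ∈ I → e * e = e → ε * ε = ε →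
      finrank W.K (LinearMap.range (1 - ε)) ≤ n →
      ((LinearMap.id : V P →ₗ[F] V P), (LinearMap.id : W.H P →ₗ[W.K] W.H P)) ∈ I := by
  induction n with
  | zero =>
    intro e ε he hee hεε hn
    have h1 : LinearMap.range (1 - ε) = ⊥ := Submodule.finrank_eq_zero.1 (Nat.le_zero.1 hn)
    have h2 : (1 : Module.End W.K (W.H P)) - ε = 0 := LinearMap.range_eq_bot.1 h1
    have h3 : (1 : Module.End F (V P)) - e = 0 := by
      exact hf.phantom (1 - e, 1 - ε) (h.sub (h.one P) (hI.le _ he)) (one_sub_idem hee) h2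
    rw [sub_eq_zero] at h2 h3
    rw [← h2, ← h3] at he
    exact he
  | succ n ih =>
    intro e ε he hee hεε hn
    set f : Module.End F (V P) := 1 - e with hf'
    set φ : Module.End W.K (W.H P) := 1 - ε with hφ'
    have hff : f * f = f := one_sub_idem hee
    have hφφ : φ * φ = φ := one_sub_idem hεε
    have hfR : (f, φ) ∈ R P P := h.sub (h.one P) (hI.le _ he)
    by_cases hnil : ∀ x ∈ I, IsNilpotent (φ * x.2 * φ : Module.End W.K (W.H P))
    · -- the trace of `φ` vanishes
      have h1 : ∀ y ∈ Submodule.span W.K (Prod.snd '' I),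
          LinearMap.trace W.K (W.H P) (φ * y * φ) = 0 := by
        intro y hy
        induction hy using Submodule.span_induction with
        | mem u hu =>
          obtain ⟨x, hx, rfl⟩ := hu
          exact (LinearMap.isNilpotent_trace_of_isNilpotent (hnil x hx)).eq_zero
        | zero => rw [mul_zero, zero_mul, map_zero]
        | add u v _ _ hu hv => rw [mul_add, add_mul, map_add, hu, hv, add_zero]
        | smul c u _ hu => rw [mul_smul_comm, smul_mul_assoc, map_smul, hu, smul_zero]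
      have h2 := h1 _ hspan
      change LinearMap.trace W.K (W.H P) (φ * 1 * φ) = 0 at h2
      rw [mul_one, hφφ] at h2
      have h3 : φ = 0 := LinearMap.IsIdempotentElem.eq_zero_of_trace_eq_zero hφφ h2
      refine ih e ε he hee hεε ?_
      rw [← hφ', h3, LinearMap.range_zero, finrank_bot]
      exact Nat.zero_le _
    · push Not at hnil
      obtain ⟨x, hx, hxn⟩ := hnil
      have hyI : (f * x.1 * f, φ * x.2 * φ) ∈ I :=
        hI.right _ (hI.left _ hfR _ hx) _ hfR
      obtain ⟨π, u, ϖ, υ, huR, hπR, e1, e2, e3, e4, hππ, hϖϖ, hnil'⟩ :=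
        h.fit_pair hf (hI.le _ hyI)
      have hπI : (π, ϖ) ∈ I := by
        have h1 := hI.left _ huR _ hyI
        change (u * (f * x.1 * f), υ * (φ * x.2 * φ)) ∈ I at h1
        rw [← e1, ← e3] at h1
        exact h1
      have hϖ0 : ϖ ≠ 0 := fun h0 => hxn (hnil' h0)
      obtain ⟨hfπ, hπf, h1⟩ := idem_sub (A := Module.End F (V P)) (g := f) hff
        (by rw [← mul_assoc, ← mul_assoc, hff]) (by rw [mul_assoc, hff]) e1 e2 hππ
      obtain ⟨hφϖ, hϖφ, h1'⟩ := idem_sub (A := Module.End W.K (W.H P)) (g := φ) hφφ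
        (by rw [← mul_assoc, ← mul_assoc, hφφ]) (by rw [mul_assoc, hφφ]) e3 e4 hϖϖ
      have h3 := finrank_sub_lt (γ := φ) hφφ hφϖ hϖφ hϖϖ hϖ0
      have hee' : e + π = 1 - (f - π) := by rw [hf']; abel
      have hεε' : ε + ϖ = 1 - (φ - ϖ) := by rw [hφ']; abel
      refine ih (e + π) (ε + ϖ) (hI.add _ he _ hπI) ?_ ?_ ?_
      · rw [hee']
        exact one_sub_idem h1
      · rw [hεε']
        exact one_sub_idem h1'
      · have h4 : 1 - (ε + ϖ) = φ - ϖ := by rw [hφ']; abel
        rw [h4]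
        omega

/-- An ideal of operators whose span contains the identity contains the identity. -/
theorem idl_top {P : 𝒱.Obj} (hf : Fine σ R P)
    {I : Set ((V P →ₗ[F] V P) × (W.H P →ₗ[W.K] W.H P))} (hI : IsIdl R P I)
    (hspan : LinearMap.id ∈ Submodule.span W.K (Prod.snd '' I)) :
    ((LinearMap.id : V P →ₗ[F] V P), (LinearMap.id : W.H P →ₗ[W.K] W.H P)) ∈ I :=
  h.idl_aux hf hI hspan _ 0 0 hI.zero (mul_zero _) (mul_zero _) le_rfl

/-- If the identity of `P` is a sum of compositions of operators through `Q` then two stable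
families which agree on `Q` agree on `P`. -/
theorem eq_of_factor {P Q : 𝒱.Obj} (hf : Fine σ R P) {N' N : ∀ X, Submodule F (V X)}
    (hN' : Stable R N') (hN : Stable R N) (hle : ∀ X, N' X ≤ N X)
    {w : W.H Q →ₗ[W.K] W.H P} {v : W.H P →ₗ[W.K] W.H Q} (hw : w ∈ S.Op Q P) (hv : v ∈ S.Op P Q)
    (hwv : w ∘ₗ v = LinearMap.id) (heq : N' Q = N Q) : N' P = N P := by
  refine le_antisymm (hle P) ?_
  let I : Set ((V P →ₗ[F] V P) × (W.H P →ₗ[W.K] W.H P)) :=
    {x | x ∈ R P P ∧ ∀ z ∈ N P, x.1 z ∈ N' P}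
  have hI : IsIdl R P I := by
    refine ⟨fun a ha => ha.1, ⟨h.zero P P (h.one P), fun z _ => Submodule.zero_mem _⟩, ?_, ?_, ?_⟩
    · intro a ha b hb
      exact ⟨h.add ha.1 hb.1, fun z hz => Submodule.add_mem _ (ha.2 z hz) (hb.2 z hz)⟩
    · intro a ha b hb
      exact ⟨h.comp ha hb.1, fun z hz => hN' P P a ha _ (hb.2 z hz)⟩
    · intro a ha b hb
      exact ⟨h.comp ha.1 hb, fun z hz => ha.2 _ (hN P P b hb z hz)⟩
  have hspan : w ∘ₗ v ∈ Submodule.span W.K (Prod.snd '' I) := by
    refine h.span_ind (p := fun w _ => w ∘ₗ v ∈ Submodule.span W.K (Prod.snd '' I)) ?_ ?_ ?_ ?_ hw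
    · intro a ha
      refine h.span_ind (p := fun v _ => a.2 ∘ₗ v ∈ Submodule.span W.K (Prod.snd '' I))
        ?_ ?_ ?_ ?_ hv
      · intro b hb
        refine Submodule.subset_span ⟨(a.1 ∘ₗ b.1, a.2 ∘ₗ b.2), ⟨h.comp ha hb, fun z hz => ?_⟩, rfl⟩
        have h1 : b.1 z ∈ N' Q := by
          rw [heq]
          exact hN P Q b hb z hz
        exact hN' Q P a ha _ h1
      · rw [LinearMap.comp_zero]; exact Submodule.zero_mem _
      · intro x y _ _ hx hy
        rw [LinearMap.comp_add]; exact Submodule.add_mem _ hx hy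
      · intro c x _ hx
        rw [LinearMap.comp_smul]; exact Submodule.smul_mem _ c hx
    · rw [LinearMap.zero_comp]; exact Submodule.zero_mem _
    · intro x y _ _ hx hy
      rw [LinearMap.add_comp]; exact Submodule.add_mem _ hx hy
    · intro c x _ hx
      rw [LinearMap.smul_comp]; exact Submodule.smul_mem _ c hx
  rw [hwv] at hspan
  have h1 := h.idl_top hf hI hspan
  exact fun z hz => h1.2 z hz

end IsMdl

namespace Sp

variable {S : Sys W} {X Y P : 𝒱.Obj}

/-- Push-forwards are operators of the system. -/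
lemma op_push (f : X ⟶ Y) : W.push f ∈ S.Op X Y := by
  have h : W.corr (W.push (Obj.lift (𝟙 X) f) (1 : W.H X)) = W.push f := by
    apply LinearMap.ext
    intro a
    rw [corr_apply, ← W.push_mul, one_mul, ← W.map_comp, ← W.push_comp,
      Obj.lift_fst, Obj.lift_snd, W.map_id]
  rw [← h]
  exact Op.corr (S.push _ (S.one X))

/-- Multiplications with classes of the system are operators of the system. -/
lemma op_mul {l : W.H X} (hl : l ∈ S.C X) : LinearMap.mulLeft W.K l ∈ S.Op X X := by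
  have h : W.corr (W.push (diag X) l) = LinearMap.mulLeft W.K l := by
    apply LinearMap.ext
    intro a
    rw [W.corr_diag]
    rfl
  rw [← h]
  exact Op.corr (S.push _ hl)

/-- The push-forward along the first projection, after multiplication with a class of degree one, is
a left inverse of the pull-back. -/
lemma exists_split {l : W.H Y} (hl : l ∈ S.C Y) (hl1 : W.tr Y l = 1) :
    ∃ w ∈ S.Op (P.prod Y) P, ∃ v ∈ S.Op P (P.prod Y), w ∘ₗ v = LinearMap.id := by
  have hm : W.map (snd P Y) l ∈ S.C (P.prod Y) := S.map _ hl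
  refine ⟨W.push (fst P Y) ∘ₗ LinearMap.mulLeft W.K (W.map (snd P Y) l),
    Op.comp (op_push _) (op_mul hm), (W.map (fst P Y)).toLinearMap, Op.map _, ?_⟩
  apply LinearMap.ext
  intro a
  change W.push (fst P Y) (W.map (snd P Y) l * W.map (fst P Y) a) = a
  rw [← sub_eq_zero]
  apply W.nondeg
  intro b
  rw [sub_mul, map_sub, W.tr_push, sub_eq_zero,
    PH.even_comm (S.even hm) (W.map (fst P Y) a), mul_assoc,
    PH.even_comm (S.even hm) (W.map (fst P Y) b), ← mul_assoc, ← map_mul]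
  have h := tr_xp (W := W) (a * b) l
  rw [hl1, mul_one] at h
  exact h

end Sp

end Pool.Agent.X312.RL
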