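import Pool.Agent.Y133.Half.TrForm

/-!
# Fitting projectors of polynomials, ranks of forms
-/

namespace Pool.Agent.X312.RL

open Module Polynomial

section Fit

variable {F : Type*} [Field F]

/-- The Fitting projector, at the level of polynomials. -/
lemma exists_fit_poly {μ : F[X]} (hμ : μ ≠ 0) :
    ∃ (q c d : F[X]) (m : ℕ), (q * X) * (q * X) = q * X - c * μ ∧
      X ^ (m + 1) = X ^ (m + 1) * (q * X) + d * μ := by
  obtain ⟨f, hf, hnd⟩ := exists_eq_pow_rootMultiplicity_mul_and_not_dvd μ hμ 0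
  set m := μ.rootMultiplicity 0
  rw [map_zero, sub_zero] at hf hnd
  have hirr : Irreducible (X : F[X]) := irreducible_X
  have hc : IsCoprime ((X : F[X]) ^ (m + 1)) f :=
    ((hirr.coprime_iff_not_dvd).2 hnd).pow_left
  obtain ⟨a, b, hab⟩ := hc
  refine ⟨a * X ^ m, a * b * X, b * X, m, ?_, ?_⟩
  · have h1 : a * X ^ m * X = a * X ^ (m + 1) := by ring
    have h2 : a * X ^ (m + 1) = 1 - b * f := by rw [← hab]; ring
    rw [hf, h1]
    calc a * X ^ (m + 1) * (a * X ^ (m + 1)) = a * X ^ (m + 1) * (1 - b * f) := by rw [← h2]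
      _ = _ := by ring
  · rw [hf]
    calc (X : F[X]) ^ (m + 1) = X ^ (m + 1) * (a * X ^ (m + 1) + b * f) := by rw [hab, mul_one]
      _ = _ := by ring

variable {A : Type*} [Ring A] [Algebra F A]

lemma fit_idem {μ q c : F[X]} (h : (q * X) * (q * X) = q * X - c * μ) {y : A}
    (hy : aeval y μ = 0) : (aeval y q * y) * (aeval y q * y) = aeval y q * y := by
  have h1 := congrArg (aeval y) h
  rw [map_mul, map_mul, map_sub, map_mul, map_mul, aeval_X, hy, mul_zero, sub_zero] at h1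
  exact h1

lemma fit_nil {μ q d : F[X]} {m : ℕ} (h : X ^ (m + 1) = X ^ (m + 1) * (q * X) + d * μ) {y : A}
    (hy : aeval y μ = 0) (h0 : aeval y q * y = 0) : y ^ (m + 1) = 0 := by
  have h1 := congrArg (aeval y) h
  rw [map_add, map_mul, map_mul, map_mul, map_pow, aeval_X, hy, mul_zero, add_zero, h0,
    mul_zero] at h1
  exact h1

end Fit

section Rank

variable {K F M Q A B : Type*} [Field K] [Field F] [AddCommGroup M] [Module F M] [AddCommGroup Q]
  [Module F Q] [AddCommGroup A] [Module K A] [AddCommGroup B] [Module K B] [FiniteDimensional K B]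

/-- The rank of a form over `K` and dimensions over `F`. -/
lemma rank_le (σ : F →+* K) (T : Set (M × B)) (hadd : ∀ a ∈ T, ∀ b ∈ T, a + b ∈ T)
    (hsmul : ∀ (c : F), ∀ a ∈ T, (c • a.1, σ c • a.2) ∈ T)
    (hspan : Submodule.span K (Prod.snd '' T) = ⊤) (Φ : B →ₗ[K] A) (L : M →ₗ[F] Q)
    (h0 : ∀ t ∈ T, L t.1 = 0 → Φ t.2 = 0) (N : Submodule F Q) [FiniteDimensional F N]
    (hN : ∀ t ∈ T, L t.1 ∈ N) : finrank K (LinearMap.range Φ) ≤ finrank F N := by
  classical
  have hr : LinearMap.range Φ = Submodule.span K (Set.range fun a : T => Φ a.1.2) := by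
    rw [LinearMap.range_eq_map, ← hspan, Submodule.map_span]
    congr 1
    ext f
    constructor
    · rintro ⟨_, ⟨t, ht, rfl⟩, rfl⟩
      exact ⟨⟨t, ht⟩, rfl⟩
    · rintro ⟨⟨t, ht⟩, rfl⟩
      exact ⟨_, ⟨t, ht, rfl⟩, rfl⟩
  obtain ⟨κ, a, ha1, ha2, ha3⟩ := exists_linearIndependent' K (fun a : T => Φ a.1.2)
  have hle : Submodule.span K (Set.range ((fun a : T => Φ a.1.2) ∘ a)) ≤ LinearMap.range Φ := by
    rw [hr, ha2]
  have hfd : FiniteDimensional K (LinearMap.range Φ) := inferInstance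
  have hfin : Finite κ := by
    have h1 : LinearIndependent K (fun t : κ => (⟨_, ⟨(a t).1.2, rfl⟩⟩ : LinearMap.range Φ)) := by
      refine LinearIndependent.of_comp (LinearMap.range Φ).subtype ?_
      exact ha3
    exact h1.finite
  have := Fintype.ofFinite κ
  have hcard : finrank K (LinearMap.range Φ) = Fintype.card κ := by
    rw [hr, ← ha2]
    exact finrank_span_eq_card ha3
  let vec : κ → N := fun t => ⟨L (a t).1.1, hN _ (a t).2⟩
  have hli : LinearIndependent F vec := by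
    rw [Fintype.linearIndependent_iff]
    intro c hc t
    have hc' : ∑ t, c t • L (a t).1.1 = 0 := by
      have h2 := congrArg Subtype.val hc
      rw [Submodule.coe_sum] at h2
      exact h2
    have hzero : ∀ x ∈ T, (0 : M × B) ∈ T := by
      intro x hx
      have h1 := hsmul 0 x hx
      rw [zero_smul, map_zero, zero_smul] at h1
      exact h1
    have hcomb : ∀ s : Finset κ, ((∑ t ∈ s, c t • (a t).1.1 : M),
        (∑ t ∈ s, σ (c t) • (a t).1.2 : B)) ∈ T := by
      intro s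
      induction s using Finset.induction_on with
      | empty => exact hzero _ (a t).2
      | insert i s hi ih =>
        rw [Finset.sum_insert hi, Finset.sum_insert hi]
        exact hadd _ (hsmul (c i) _ (a i).2) _ ih
    have h3 := h0 _ (hcomb Finset.univ) (by
      change L (∑ t, c t • (a t).1.1) = 0
      rw [map_sum, ← hc']
      exact Finset.sum_congr rfl fun t _ => map_smul L _ _)
    change Φ (∑ t, σ (c t) • (a t).1.2) = 0 at h3
    rw [map_sum] at h3
    have h4 : ∑ t, σ (c t) • Φ (a t).1.2 = 0 := by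
      rw [← h3]
      exact Finset.sum_congr rfl fun t _ => (map_smul Φ _ _).symm
    have h5 := (Fintype.linearIndependent_iff.1 ha3) (fun t => σ (c t)) h4 t
    exact (map_eq_zero σ).1 h5
  rw [hcard]
  exact hli.fintype_card_le_finrank

open Pool.Agent.Y133.Half in
lemma rk_le {K F M Q A B : Type*} [Field K] [Field F] [AddCommGroup M] [Module F M]
    [AddCommGroup Q] [Module F Q] [AddCommGroup A] [Module K A] [AddCommGroup B] [Module K B]
    [FiniteDimensional K A] [FiniteDimensional K B]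
    (β : A →ₗ[K] B →ₗ[K] K)
    (σ : F →+* K) (T : Set (M × B)) (hadd : ∀ a ∈ T, ∀ b ∈ T, a + b ∈ T)
    (hsmul : ∀ (c : F), ∀ a ∈ T, (c • a.1, σ c • a.2) ∈ T)
    (hspan : Submodule.span K (Prod.snd '' T) = ⊤) (L : M →ₗ[F] Q)
    (h0 : ∀ t ∈ T, L t.1 = 0 → ∀ a, β a t.2 = 0) (N : Submodule F Q) [FiniteDimensional F N]
    (hN : ∀ t ∈ T, L t.1 ∈ N) : rk β ≤ finrank F N := by
  rw [← rk_flip]
  exact rank_le σ T hadd hsmul hspan β.flip L
    (fun t ht h => LinearMap.ext fun a => h0 t ht h a) N hN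

open Pool.Agent.Y133.Half in
lemma rk_sub_le {K F M Q E E' : Type*} [Field K] [Field F] [AddCommGroup M] [Module F M]
    [AddCommGroup Q] [Module F Q] [AddCommGroup E] [Module K E] [AddCommGroup E'] [Module K E']
    [FiniteDimensional K E] [FiniteDimensional K E'] (A : Submodule K E) (B : Submodule K E')
    (β : A →ₗ[K] B →ₗ[K] K)
    (σ : F →+* K) (T : Set (M × B)) (hadd : ∀ a ∈ T, ∀ b ∈ T, a + b ∈ T)
    (hsmul : ∀ (c : F), ∀ a ∈ T, (c • a.1, σ c • a.2) ∈ T)
    (hspan : Submodule.span K (Prod.snd '' T) = ⊤) (L : M →ₗ[F] Q)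
    (h0 : ∀ t ∈ T, L t.1 = 0 → ∀ a, β a t.2 = 0) (N : Submodule F Q) [FiniteDimensional F N]
    (hN : ∀ t ∈ T, L t.1 ∈ N) : rk (A := A) (B := B) β ≤ finrank F N :=
  rk_le (A := A) (B := B) β σ T hadd hsmul hspan L h0 N hN

end Rank


section Idem

variable {A : Type*} [Ring A]

lemma idem_sub {g y u π : A} (hg : g * g = g) (hgy : g * y = y) (hyg : y * g = y)
    (h1 : π = u * y) (h2 : π = y * u) (hπ : π * π = π) :
    g * π = π ∧ π * g = π ∧ (g - π) * (g - π) = g - π := by
  have h3 : g * π = π := by rw [h2, ← mul_assoc, hgy]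
  have h4 : π * g = π := by rw [h1, mul_assoc, hyg]
  refine ⟨h3, h4, ?_⟩
  rw [sub_mul, mul_sub, mul_sub, hg, h3, h4, hπ, sub_self, sub_zero]

variable {K H : Type*} [Field K] [AddCommGroup H] [Module K H] [FiniteDimensional K H]

lemma finrank_sub_lt {γ ϖ : Module.End K H} (hγ : γ * γ = γ) (h1 : γ * ϖ = ϖ) (h2 : ϖ * γ = ϖ)
    (h3 : ϖ * ϖ = ϖ) (hne : ϖ ≠ 0) :
    finrank K (LinearMap.range (γ - ϖ)) < finrank K (LinearMap.range γ) := by
  have hle : LinearMap.range (γ - ϖ) ≤ LinearMap.range γ := by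
    rintro _ ⟨x, rfl⟩
    refine ⟨(γ - ϖ) x, ?_⟩
    have : γ * (γ - ϖ) = γ - ϖ := by
      rw [mul_sub, h1, hγ]
    exact congrArg (fun f : Module.End K H => f x) this
  apply Submodule.finrank_lt_finrank_of_lt
  refine lt_of_le_of_ne hle ?_
  intro heq
  apply hne
  apply LinearMap.ext
  intro x
  have h4 : ϖ x ∈ LinearMap.range γ :=
    ⟨ϖ x, congrArg (fun f : Module.End K H => f x) h1⟩
  rw [← heq] at h4
  obtain ⟨w, hw⟩ := h4
  have h5 : ϖ ((γ - ϖ) w) = 0 := by
    have : ϖ * (γ - ϖ) = 0 := by rw [mul_sub, h2, h3, sub_self]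
    exact congrArg (fun f : Module.End K H => f w) this
  rw [hw] at h5
  have h6 : ϖ (ϖ x) = ϖ x := congrArg (fun f : Module.End K H => f x) h3
  rw [LinearMap.zero_apply, ← h6, h5]

lemma trace_compress {p γ ξ : Module.End K H} (hγ : γ * γ = γ) (hp : p * γ = γ * p) :
    LinearMap.trace K H (p ∘ₗ γ ∘ₗ ξ) = LinearMap.trace K H (p ∘ₗ (γ ∘ₗ ξ ∘ₗ γ)) := by
  calc LinearMap.trace K H (p * (γ * ξ))
      = LinearMap.trace K H (γ * (p * γ * ξ)) := by
        congr 1
        rw [hp, ← mul_assoc, ← mul_assoc, ← mul_assoc, hγ, hp]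
    _ = LinearMap.trace K H ((p * γ * ξ) * γ) := LinearMap.trace_mul_comm K _ _
    _ = LinearMap.trace K H (p * (γ * (ξ * γ))) := by
        simp only [mul_assoc]

end Idem

end Pool.Agent.X312.RL
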