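import Pool.Agent.X312.RL.Step
import Pool.Agent.X312.DL.Eff

/-!
# Stable families of subspaces in modules over correspondences: lower bounds on powers
-/

open CategoryTheory AlgebraicGeometry

universe u v w

namespace Pool.Agent.X312.RL

open Module Polynomial
open Pool.Agent.H914 Pool.Agent.H914.VarClass Pool.Agent.H914.VarClass.Obj
  Pool.Agent.H914.WeilCohomology Pool.Agent.Y133.Half Pool.Agent.Y133.Half.Sys
  Pool.Agent.X312.DL

lemma one_le_log {l : ℕ} (hl : 1 ≤ l) : (1 : ℝ) ≤ Real.log ((l : ℝ) + 2) := by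
  have hl' : (1 : ℝ) ≤ l := by exact_mod_cast hl
  rw [Real.le_log_iff_exp_le (by linarith)]
  have := Real.exp_one_lt_d9
  linarith

/-- The real inequality. -/
lemma real_ineq {b l : ℕ} (hb : 1 ≤ b) (hl : 1 ≤ l) {η ρ : ℝ} (hρ : 2 ≤ ρ) (hη1 : η ≤ 1)
    (hη : ρ * (b : ℝ) ^ 2 * Real.log (l + 2) ≤ η * l) :
    ρ * (b : ℝ) ^ 2 * ((l : ℝ) + 2) ^ (b ^ 2) * (1 - η) ^ l ≤ 1 := by
  have hb' : (1 : ℝ) ≤ b := by exact_mod_cast hb
  have hl' : (1 : ℝ) ≤ l := by exact_mod_cast hl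
  have hb2 : (1 : ℝ) ≤ (b : ℝ) ^ 2 := one_le_pow₀ hb'
  have hlogρ : Real.log ρ ≤ ρ - 1 := Real.log_le_sub_one_of_pos (by linarith)
  have hlog1 := one_le_log hl
  have hlb : Real.log ((b : ℝ) ^ 2) ≤ (b : ℝ) ^ 2 - 1 := Real.log_le_sub_one_of_pos (by positivity)
  have hexpo : (1 - η) ^ l ≤ Real.exp (-(η * l)) := by
    calc (1 - η) ^ l ≤ Real.exp (-η) ^ l :=
          pow_le_pow_left₀ (by linarith) (Real.one_sub_le_exp_neg η) _
      _ = Real.exp ((l : ℝ) * (-η)) := (Real.exp_nat_mul _ _).symm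
      _ = _ := by congr 1; ring
  have h1 : ρ * (b : ℝ) ^ 2 * ((l : ℝ) + 2) ^ (b ^ 2) =
      Real.exp (Real.log ρ + Real.log ((b : ℝ) ^ 2) + (b : ℝ) ^ 2 * Real.log ((l : ℝ) + 2)) := by
    rw [Real.exp_add, Real.exp_add, Real.exp_log (by linarith), Real.exp_log (by positivity)]
    congr 1
    have : (b : ℝ) ^ 2 * Real.log ((l : ℝ) + 2) = ((b ^ 2 : ℕ) : ℝ) * Real.log ((l : ℝ) + 2) := by
      push_cast; ring
    rw [this, Real.exp_nat_mul, Real.exp_log (by linarith)]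
  calc ρ * (b : ℝ) ^ 2 * ((l : ℝ) + 2) ^ (b ^ 2) * (1 - η) ^ l
      ≤ ρ * (b : ℝ) ^ 2 * ((l : ℝ) + 2) ^ (b ^ 2) * Real.exp (-(η * l)) :=
        mul_le_mul_of_nonneg_left hexpo (by positivity)
    _ = Real.exp (Real.log ρ + Real.log ((b : ℝ) ^ 2) + (b : ℝ) ^ 2 * Real.log ((l : ℝ) + 2) -
          η * l) := by rw [h1, ← Real.exp_add]; congr 1
    _ ≤ 1 := by
        rw [Real.exp_le_one_iff]
        have h2 : (ρ - 1) * (b : ℝ) ^ 2 ≤ (ρ - 1) * (b : ℝ) ^ 2 * Real.log ((l : ℝ) + 2) :=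
          le_mul_of_one_le_right (mul_nonneg (by linarith) (by linarith)) hlog1
        have h3 : 0 ≤ ((b : ℝ) ^ 2 - 1) * (ρ - 2) := mul_nonneg (by linarith) (by linarith)
        nlinarith

variable {k : Type u} [Field k] {𝒱 : VarClass k} {ops : CycleOps 𝒱}
  {W : WeilCohomology.{u, v} ops} {F : Type w} [Field F] {V : 𝒱.Obj → Type w}
  [∀ X, AddCommGroup (V X)] [∀ X, Module F (V X)] {X : 𝒱.Obj}

/-- The constant in the bounds. -/
noncomputable def cst (b m : ℕ) (ρ : ℝ) (n : ℕ) : ℝ :=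
  2 * (m + 3) * (b : ℝ) ^ (m + 5) * ρ * Real.log (n + 2) / (n + 1)

lemma log_nonneg' (n : ℕ) : 0 ≤ Real.log ((n : ℝ) + 2) := Real.log_nonneg (by
    have : (0 : ℝ) ≤ n := Nat.cast_nonneg n
    linarith)

lemma cst_mono {b m m' n : ℕ} {ρ : ℝ} (hρ : 0 ≤ ρ) (hb : 1 ≤ b) (h : m ≤ m') :
    cst b m ρ n ≤ cst b m' ρ n := by
  have hb' : (1 : ℝ) ≤ b := by exact_mod_cast hb
  have hlog := log_nonneg' n
  have hm : (m : ℝ) ≤ m' := by exact_mod_cast h
  unfold cst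
  gcongr

lemma one_le_cst {b m n : ℕ} {ρ : ℝ} (hρ : 2 ≤ ρ) (hb : 1 ≤ b) (hn : n < 6) :
    1 ≤ cst b m ρ n := by
  have hb' : (1 : ℝ) ≤ b := by exact_mod_cast hb
  have hlog : (0.6931471803 : ℝ) < Real.log ((n : ℝ) + 2) := by
    refine Real.log_two_gt_d9.trans_le (Real.log_le_log (by norm_num) ?_)
    have : (0 : ℝ) ≤ n := Nat.cast_nonneg n
    linarith
  have hm : (0 : ℝ) ≤ m := Nat.cast_nonneg m
  have hn' : (n : ℝ) + 1 ≤ 6 := by
    have : n + 1 ≤ 6 := hn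
    exact_mod_cast this
  have hn0 : (0 : ℝ) < (n : ℝ) + 1 := by positivity
  have h1 : (1 : ℝ) ≤ (b : ℝ) ^ (m + 5) := one_le_pow₀ hb'
  unfold cst
  rw [le_div_iff₀ hn0, one_mul]
  have h2 : (6 : ℝ) ≤ 2 * (m + 3) * (b : ℝ) ^ (m + 5) := by nlinarith
  have h3 : (12 : ℝ) ≤ 2 * (m + 3) * (b : ℝ) ^ (m + 5) * ρ := by nlinarith
  nlinarith

namespace IsMdl

variable {S : Sys W} {σ : F →+* W.K} {R : Ops W F V} (h : IsMdl S σ R)
include h

/-- The bound for a fixed parity. -/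
theorem bound_parity (hpos : ∀ l, 0 < S.al X l) (hX : 0 < finrank W.K (W.H X)) {m : ℕ}
    (hf : Fine σ R (pw X m)) {N' N : ∀ X, Submodule F (V X)} (hN' : Stable R N')
    (hN : Stable R N) (hle : ∀ X, N' X ≤ N X) (hne : N' (pw X m) ≠ N (pw X m))
    {ρ : ℝ} (hρ : 2 ≤ ρ) {n : ℕ}
    (hpar : n % 2 = m % 2) (hfd : FiniteDimensional F (N (pw X n))) :
    (finrank F (N' (pw X n)) + (1 - cst (finrank W.K (W.H X)) m ρ n) * S.a (pw X n) ≤
      finrank F (N (pw X n))) ∨ ∀ T : Sys W, ρ * S.a (pw X n) ≤ finrank W.K (T.C (pw X n)) := by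
  set b := finrank W.K (W.H X) with hb
  have hb1 : (1 : ℝ) ≤ b := by exact_mod_cast hX
  have ha0 : (0 : ℝ) ≤ S.a (pw X n) := Nat.cast_nonneg _
  have hNN : (finrank F (N' (pw X n)) : ℝ) ≤ finrank F (N (pw X n)) := by
    exact_mod_cast Submodule.finrank_mono (hle _)
  rcases lt_or_ge n 6 with hn6 | hn6
  · left
    have hc := one_le_cst (m := m) hρ hX hn6
    have : (1 - cst b m ρ n) * (S.a (pw X n) : ℝ) ≤ 0 :=
      mul_nonpos_of_nonpos_of_nonneg (by linarith) ha0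
    linarith
  set m₀ := m % 2 with hm₀
  obtain ⟨j, hj⟩ : ∃ j, m + m₀ + 2 = 2 * j := ⟨(m + m₀ + 2) / 2, by omega⟩
  obtain ⟨l', hl'⟩ : ∃ l', n = m₀ + (l' + l' + 1) + 1 := ⟨(n - m₀ - 2) / 2, by omega⟩
  have hj1 : 1 ≤ j := by omega
  have hl1 : 1 ≤ l' := by omega
  have hln : (n : ℝ) + 1 ≤ 4 * l' := by
    have : n + 1 ≤ 4 * l' := by omega
    exact_mod_cast this
  have hl0 : (1 : ℝ) ≤ l' := by exact_mod_cast hl1
  have hj0 : (1 : ℝ) ≤ j := by exact_mod_cast hj1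
  have hlog1 := one_le_log hl1
  have hlogn : Real.log ((l' : ℝ) + 2) ≤ Real.log ((n : ℝ) + 2) := by
    apply Real.log_le_log (by linarith)
    have : l' + 2 ≤ n + 2 := by omega
    exact_mod_cast this
  have hn0 : (0 : ℝ) < (n : ℝ) + 1 := by positivity
  set η : ℝ := ρ * (b : ℝ) ^ 2 * Real.log ((l' : ℝ) + 2) / l' with hη
  have hη0 : 0 ≤ η := by positivity
  set δ : ℝ := ((b : ℝ) ^ 2) ^ j * (j * η) with hδ
  have hδc : δ ≤ cst b m ρ n := by
    have hjm : (j : ℝ) ≤ (m + 3) / 2 := by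
      have : 2 * j ≤ m + 3 := by omega
      have : (2 : ℝ) * j ≤ m + 3 := by exact_mod_cast this
      linarith
    have hbm : ((b : ℝ) ^ 2) ^ j * (b : ℝ) ^ 2 ≤ (b : ℝ) ^ (m + 5) := by
      rw [← pow_mul, ← pow_add]
      exact pow_le_pow_right₀ hb1 (by omega)
    have h1 : δ = (((b : ℝ) ^ 2) ^ j * (b : ℝ) ^ 2) * (j * (ρ * (Real.log ((l' : ℝ) + 2) / l'))) := by
      rw [hδ, hη]; ring
    have h2 : Real.log ((l' : ℝ) + 2) / l' ≤ 4 * Real.log ((n : ℝ) + 2) / (n + 1) := by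
      rw [div_le_div_iff₀ (by linarith) hn0]
      nlinarith
    rw [h1, cst]
    have h3 : 0 ≤ Real.log ((l' : ℝ) + 2) / l' := by positivity
    have hρ0 : 0 ≤ ρ := by linarith
    calc (((b : ℝ) ^ 2) ^ j * (b : ℝ) ^ 2) * (j * (ρ * (Real.log ((l' : ℝ) + 2) / l')))
        ≤ (b : ℝ) ^ (m + 5) * ((m + 3) / 2 * (ρ * (4 * Real.log ((n : ℝ) + 2) / (n + 1)))) := by
          apply mul_le_mul hbm _ (by positivity) (by positivity)
          apply mul_le_mul hjm _ (by positivity) (by positivity)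
          exact mul_le_mul_of_nonneg_left h2 hρ0
      _ = _ := by ring
  rcases le_or_gt 1 δ with hδ1 | hδ1
  · left
    have : (1 - cst b m ρ n) * (S.a (pw X n) : ℝ) ≤ 0 :=
      mul_nonpos_of_nonpos_of_nonneg (by linarith) ha0
    linarith
  have hη1 : η ≤ 1 := by
    have h1 : (1 : ℝ) ≤ ((b : ℝ) ^ 2) ^ j := one_le_pow₀ (one_le_pow₀ hb1)
    have h2 : η ≤ j * η := by nlinarith
    have h3 : j * η ≤ δ := by
      rw [hδ]
      nlinarith [mul_nonneg (by linarith : (0 : ℝ) ≤ j) hη0]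
    linarith
  set c : ℝ := (b : ℝ) ^ 2 * (1 - η) with hc
  have hc0 : 0 ≤ c := mul_nonneg (by positivity) (by linarith)
  have hcj : ((b : ℝ) ^ 2) ^ j - δ ≤ c ^ j := close_pow (by positivity) hη0 hη1 j le_rfl
  rcases le_or_gt (c * S.al X l') (S.al X (l' + 1)) with hcase | hcase
  · left
    have hA : ∀ i ≥ l', c * S.al X i ≤ S.al X (i + 1) := fun i hi =>
      ratio_mono hpos (S.al_convex X) hcase hi
    obtain ⟨g, hg, hgg, hg0, hstep⟩ := h.step hf hN' hN hle hne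
    have hst := hstep (pw X n) hfd
    set Y := pw X l' with hY
    set P₀ := pw X m₀ with hP₀
    let φ : P₀.prod (Y.prod Y) ≅ pw X n :=
      prodCongr (Iso.refl _) (pwAdd X l' l') ≪≫ pwAdd X m₀ (l' + l' + 1) ≪≫
        eqToIso (congrArg (pw X) hl'.symm)
    have hr := S.r_iso (P := pw X m) g φ
    have h4 := S.r_lower (P₀ := P₀) hg hgg hg0 Y
    have hdP : finrank W.K (W.H (pw X m)) = b ^ (m + 1) := finrank_pw _ _
    have hdP₀ : finrank W.K (W.H P₀) = b ^ (m₀ + 1) := finrank_pw _ _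
    have hal : S.a (Y.prod Y) = S.al X l' := rfl
    have haP : S.a (((pw X m).prod P₀).prod (Y.prod Y)) = S.al X (l' + j) := by
      rw [S.a_iso (prodCongr (pwAdd X m m₀) (Iso.refl _))]
      exact S.a_pw X (by omega)
    have hup : S.a (pw X n) ≤ b ^ (m₀ + 1) * S.al X l' := by
      rw [← S.a_iso φ, ← hdP₀]
      exact S.a_le _ _
    have hpow := ratio_pow hc0 hA j l' le_rfl
    rw [haP, hdP, hdP₀, hal, hr] at h4
    have h5 : (S.al X (l' + j) : ℝ) + (b : ℝ) ^ (m₀ + 1) * S.al X l' ≤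
        S.r (pw X m) g (pw X n) + (b : ℝ) ^ (m + 1) * (b : ℝ) ^ (m₀ + 1) *
          S.al X l' := by exact_mod_cast h4
    have h6 : (b : ℝ) ^ (m + 1) * (b : ℝ) ^ (m₀ + 1) = ((b : ℝ) ^ 2) ^ j := by
      rw [← pow_add, ← pow_mul]
      congr 1
      omega
    rw [h6] at h5
    have h7 : (0 : ℝ) ≤ S.al X l' := Nat.cast_nonneg _
    have hb10 : (1 : ℝ) ≤ (b : ℝ) ^ (m₀ + 1) := one_le_pow₀ hb1
    have h8 : ((b : ℝ) ^ (m₀ + 1) - δ) * S.al X l' ≤ S.r (pw X m) g (pw X n) := by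
      nlinarith [mul_le_mul_of_nonneg_right hcj h7]
    have hup' : (S.a (pw X n) : ℝ) ≤ (b : ℝ) ^ (m₀ + 1) * S.al X l' := by exact_mod_cast hup
    have h9 : (1 - δ) * S.a (pw X n) ≤ S.r (pw X m) g (pw X n) := by
      calc (1 - δ) * S.a (pw X n) ≤ (1 - δ) * ((b : ℝ) ^ (m₀ + 1) * S.al X l') :=
            mul_le_mul_of_nonneg_left hup' (by linarith)
        _ ≤ ((b : ℝ) ^ (m₀ + 1) - δ) * S.al X l' := by
            have hδ0 : 0 ≤ δ := by positivity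
            nlinarith [mul_nonneg hδ0 h7]
        _ ≤ _ := h8
    have h10 : (finrank F (N' (pw X n)) : ℝ) + S.r (pw X m) g (pw X n) ≤
        finrank F (N (pw X n)) := by exact_mod_cast hst
    have h11 : (1 - cst b m ρ n) * (S.a (pw X n) : ℝ) ≤ (1 - δ) * S.a (pw X n) :=
      mul_le_mul_of_nonneg_right (by linarith) ha0
    linarith
  · right
    intro T
    have hBc : ∀ i < l', (S.al X (i + 1) : ℝ) ≤ c * S.al X i := fun i hi =>
      ratio_le_of_lt hpos (S.al_convex X) hcase hi.le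
    refine small_close hc0 hBc hX (m₀ := m₀) (by omega) hl' (by linarith) ?_
    have hkey := real_ineq (b := b) (l := l') hX hl1 hρ hη1 (by
      rw [hη]
      field_simp
      exact le_rfl)
    rw [hc, mul_pow]
    have h7 : (0 : ℝ) ≤ ((b : ℝ) ^ 2) ^ l' := by positivity
    calc ρ * (b : ℝ) ^ 2 * ((l' : ℝ) + 2) ^ (b ^ 2) * (((b : ℝ) ^ 2) ^ l' * (1 - η) ^ l')
        = ((b : ℝ) ^ 2) ^ l' * (ρ * (b : ℝ) ^ 2 * ((l' : ℝ) + 2) ^ (b ^ 2) * (1 - η) ^ l') := by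
          ring
      _ ≤ ((b : ℝ) ^ 2) ^ l' * 1 := mul_le_mul_of_nonneg_left hkey h7
      _ = _ := mul_one _

end IsMdl

end Pool.Agent.X312.RL
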