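import Pool.Agent.X312.RL.Ideal

/-!
# Stable families of subspaces in modules over correspondences: the main theorem
-/

open CategoryTheory AlgebraicGeometry

universe u v w

namespace Pool.Agent.X312.RL

open Module Polynomial
open Pool.Agent.H914 Pool.Agent.H914.VarClass Pool.Agent.H914.VarClass.Obj
  Pool.Agent.H914.WeilCohomology Pool.Agent.Y133.Half Pool.Agent.Y133.Half.Sys

variable {k : Type u} [Field k] {𝒱 : VarClass k} {ops : CycleOps 𝒱}
  {W : WeilCohomology.{u, v} ops} {F : Type w} [Field F] {V : 𝒱.Obj → Type w}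
  [∀ X, AddCommGroup (V X)] [∀ X, Module F (V X)]

namespace IsMdl

variable {S : Sys W} {σ : F →+* W.K} {R : Ops W F V} (h : IsMdl S σ R)
include h

/-- **The main theorem.** For stable families `N' ≤ N` which differ on the power `X^(m+1)`: for all
`n` the dimensions of `N'` and `N` on `X^(n+1)` differ by at least
`1 - 2 (m + 4) b^(m+6) ρ log (n+2) / (n+1)` times the rank of the form on the classes of the system,
or this rank is at most `1 / ρ` of the dimension of the space of the classes of any system. -/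
theorem bound {X : 𝒱.Obj} {l : W.H X} (hl : l ∈ S.C X) (hl1 : W.tr X l = 1)
    (hf : ∀ m, Fine σ R (pw X m)) {N' N : ∀ X, Submodule F (V X)} (hN' : Stable R N')
    (hN : Stable R N) (hle : ∀ X, N' X ≤ N X) {m : ℕ} (hne : N' (pw X m) ≠ N (pw X m))
    {ρ : ℝ} (hρ : 2 ≤ ρ) (n : ℕ) (hfd : FiniteDimensional F (N (pw X n))) :
    (finrank F (N' (pw X n)) + (1 - cst (finrank W.K (W.H X)) (m + 1) ρ n) * S.a (pw X n) ≤
      finrank F (N (pw X n))) ∨ ∀ T : Sys W, ρ * S.a (pw X n) ≤ finrank W.K (T.C (pw X n)) := by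
  have h1 : (1 : W.H X) ≠ 0 := one_ne_zero_of (ne_zero_of_tr hl1)
  have hX : 0 < finrank W.K (W.H X) := by
    have : Nontrivial (W.H X) := ⟨⟨1, 0, h1⟩⟩
    exact Module.finrank_pos
  have hpos : ∀ n, 0 < S.al X n := by
    intro n
    obtain ⟨m, hm, hm1⟩ := S.exists_lam hl hl1 n
    refine S.a_pos (xp_mem_C S hm hm) ?_
    rw [tr_xp, hm1, mul_one]
  by_cases hpar : n % 2 = m % 2
  · rcases h.bound_parity hpos hX (hf m) hN' hN hle hne hρ hpar hfd with h2 | h2
    · left
      have h3 := cst_mono (ρ := ρ) (n := n) (b := finrank W.K (W.H X)) (by linarith) hX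
        (Nat.le_succ m)
      have h4 : (0 : ℝ) ≤ S.a (pw X n) := Nat.cast_nonneg _
      nlinarith
    · exact Or.inr h2
  · have hne' : N' (pw X (m + 1)) ≠ N (pw X (m + 1)) := by
      intro heq
      apply hne
      obtain ⟨w, hw, v, hv, hwv⟩ := Sp.exists_split (S := S) (P := pw X m) hl hl1
      exact h.eq_of_factor (hf m) hN' hN hle hw hv hwv heq
    exact h.bound_parity hpos hX (hf (m + 1)) hN' hN hle hne' hρ (by omega) hfd

end IsMdl

/-! ## Homomorphisms from the cohomology of a fixed variety -/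

/-- The operators on the homomorphisms from the cohomology of `Y`. -/
def homOps (S : Sys W) (Y : 𝒱.Obj) : Ops W W.K (fun Z => W.H Y →ₗ[W.K] W.H Z) :=
  fun Z Z' => {a | a.2 ∈ S.Op Z Z' ∧ ∀ u, a.1 u = a.2 ∘ₗ u}

lemma isMdl_hom (S : Sys W) (Y : 𝒱.Obj) : IsMdl S (RingHom.id W.K) (homOps S Y) := by
  refine ⟨?_, ?_, ?_, ?_, ?_⟩
  · rintro Z Z' a b ⟨ha, ha'⟩ ⟨hb, hb'⟩
    refine ⟨Submodule.add_mem _ ha hb, fun u => ?_⟩
    change (a.1 + b.1) u = (a.2 + b.2) ∘ₗ u
    rw [LinearMap.add_apply, ha', hb', LinearMap.add_comp]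
  · rintro Z Z' c a ⟨ha, ha'⟩
    refine ⟨Submodule.smul_mem _ _ ha, fun u => ?_⟩
    change (c • a.1) u = (c • a.2) ∘ₗ u
    rw [LinearMap.smul_apply, ha', LinearMap.smul_comp]
  · intro Z
    exact ⟨Op.id, fun u => rfl⟩
  · rintro Z Z' Z'' a b ⟨ha, ha'⟩ ⟨hb, hb'⟩
    refine ⟨Op.comp ha hb, fun u => ?_⟩
    change a.1 (b.1 u) = (a.2 ∘ₗ b.2) ∘ₗ u
    rw [ha', hb', LinearMap.comp_assoc]
  · intro Z Z'
    have h1 : Prod.snd '' homOps S Y Z Z' = (S.Op Z Z' : Set (W.H Z →ₗ[W.K] W.H Z')) := by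
      ext u
      constructor
      · rintro ⟨a, ha, rfl⟩
        exact ha.1
      · intro hu
        refine ⟨(LinearMap.llcomp W.K (W.H Y) (W.H Z) (W.H Z') u, u), ⟨hu, fun x => ?_⟩, rfl⟩
        rfl
    rw [h1, Submodule.span_eq]

lemma fine_hom (S : Sys W) (Y P : 𝒱.Obj) : Fine (RingHom.id W.K) (homOps S Y) P := by
  refine ⟨?_, ?_⟩
  · rintro ⟨a, b⟩ ⟨hb, hab⟩
    change ∀ u, a u = b ∘ₗ u at hab
    refine ⟨LinearMap.charpoly b, b.charpoly_monic.ne_zero, ?_, ?_⟩
    · have key : ∀ (q : W.K[X]) (u : W.H Y →ₗ[W.K] W.H P),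
          (aeval (a : Module.End W.K (W.H Y →ₗ[W.K] W.H P)) q) u =
            (aeval (b : Module.End W.K (W.H P)) q : W.H P →ₗ[W.K] W.H P) ∘ₗ u := by
        intro q
        induction q using Polynomial.induction_on' with
        | add p q hp hq =>
          intro u
          rw [map_add, map_add, LinearMap.add_apply, hp, hq, LinearMap.add_comp]
        | monomial n c =>
          intro u
          rw [aeval_monomial, aeval_monomial, Module.End.mul_apply]
          have h1 : ∀ (n : ℕ) (u : W.H Y →ₗ[W.K] W.H P),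
              ((a : Module.End W.K (W.H Y →ₗ[W.K] W.H P)) ^ n) u =
                ((b : Module.End W.K (W.H P)) ^ n : W.H P →ₗ[W.K] W.H P) ∘ₗ u := by
            intro n
            induction n with
            | zero => intro u; rfl
            | succ n ih =>
              intro u
              rw [pow_succ, pow_succ, Module.End.mul_apply]
              change (a ^ n) (a u) = _
              rw [ih, hab]
              rfl
          rw [h1]
          rfl
      apply LinearMap.ext
      intro u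
      rw [key, LinearMap.zero_apply]
      change (aeval (b : Module.End W.K (W.H P)) b.charpoly : W.H P →ₗ[W.K] W.H P) ∘ₗ u = 0
      rw [LinearMap.aeval_self_charpoly, LinearMap.zero_comp]
    · rw [Polynomial.map_id]
      exact LinearMap.aeval_self_charpoly b
  · rintro ⟨a, b⟩ ⟨hb, hab⟩ - h0
    change b = 0 at h0
    change ∀ u, a u = b ∘ₗ u at hab
    change a = 0
    apply LinearMap.ext
    intro u
    rw [hab, h0, LinearMap.zero_comp, LinearMap.zero_apply]

lemma stable_bot (S : Sys W) (Y : 𝒱.Obj) :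
    Stable (homOps S Y) (fun Z => (⊥ : Submodule W.K (W.H Y →ₗ[W.K] W.H Z))) := by
  intro X Z a _ x hx
  rw [(Submodule.mem_bot W.K).1 hx, map_zero]
  exact Submodule.zero_mem _

lemma stable_num (S : Sys W) (Y : 𝒱.Obj) : Stable (homOps S Y) (fun Z => S.NOp Y Z) := by
  intro X Z a ha x hx
  rw [ha.2]
  exact NOp.comp_left ha.1 hx

lemma stable_op {S T : Sys W} (hST : ∀ X, S.C X ≤ T.C X) (Y : 𝒱.Obj) :
    Stable (homOps S Y) (fun Z => T.Op Y Z) := by
  intro X Z a ha x hx
  rw [ha.2]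
  obtain ⟨c, hc, hc'⟩ := mem_Op.1 ha.1
  exact Op.comp (mem_Op.2 ⟨c, hST _ hc, hc'⟩) hx

end Pool.Agent.X312.RL
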