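import Pool.Agent.Y133.Half.Chain
import Pool.Agent.X312.RL.Lin

/-!
# Stable families of subspaces in modules over correspondences: definitions
-/

open CategoryTheory AlgebraicGeometry

universe u v w

namespace Pool.Agent.X312.RL

open Module Polynomial
open Pool.Agent.H914 Pool.Agent.H914.VarClass Pool.Agent.H914.VarClass.Obj
  Pool.Agent.H914.WeilCohomology Pool.Agent.Y133.Half Pool.Agent.Y133.Half.Sys

variable {k : Type u} [Field k] {𝒱 : VarClass k} {ops : CycleOps 𝒱}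
  {W : WeilCohomology.{u, v} ops} {F : Type w} [Field F] {V : 𝒱.Obj → Type w}
  [∀ X, AddCommGroup (V X)] [∀ X, Module F (V X)]

/-- The pairs of operators. -/
abbrev Ops (W : WeilCohomology.{u, v} ops) (F : Type w) [Field F] (V : 𝒱.Obj → Type w)
    [∀ X, AddCommGroup (V X)] [∀ X, Module F (V X)] : Type _ :=
  ∀ X Y : 𝒱.Obj, Set ((V X →ₗ[F] V Y) × (W.H X →ₗ[W.K] W.H Y))

/-- The `V X` form a module over the correspondences of the system `S`. -/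
structure IsMdl (S : Sys W) (σ : F →+* W.K) (R : Ops W F V) : Prop where
  add : ∀ {X Y : 𝒱.Obj} {a b : (V X →ₗ[F] V Y) × (W.H X →ₗ[W.K] W.H Y)}, a ∈ R X Y →
    b ∈ R X Y → a + b ∈ R X Y
  smul : ∀ {X Y : 𝒱.Obj} (c : F) {a : (V X →ₗ[F] V Y) × (W.H X →ₗ[W.K] W.H Y)}, a ∈ R X Y →
    (c • a.1, σ c • a.2) ∈ R X Y
  one : ∀ X, ((LinearMap.id : V X →ₗ[F] V X), (LinearMap.id : W.H X →ₗ[W.K] W.H X)) ∈ R X X
  comp : ∀ {X Y Z : 𝒱.Obj} {a : (V Y →ₗ[F] V Z) × (W.H Y →ₗ[W.K] W.H Z)}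
    {b : (V X →ₗ[F] V Y) × (W.H X →ₗ[W.K] W.H Y)}, a ∈ R Y Z → b ∈ R X Y →
    (a.1 ∘ₗ b.1, a.2 ∘ₗ b.2) ∈ R X Z
  span : ∀ X Y, Submodule.span W.K (Prod.snd '' R X Y) = S.Op X Y

/-- The family of subspaces is stable. -/
def Stable (R : Ops W F V) (N : ∀ X, Submodule F (V X)) : Prop :=
  ∀ X Y, ∀ a ∈ R X Y, ∀ x ∈ N X, a.1 x ∈ N Y

/-- The conditions on an object. -/
structure Fine (σ : F →+* W.K) (R : Ops W F V) (P : 𝒱.Obj) : Prop where
  alg : ∀ x ∈ R P P, ∃ μ : F[X], μ ≠ 0 ∧ aeval (x.1 : Module.End F (V P)) μ = 0 ∧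
    aeval (x.2 : Module.End W.K (W.H P)) (μ.map σ) = 0
  phantom : ∀ x ∈ R P P, x.1 ∘ₗ x.1 = x.1 → x.2 = 0 → x.1 = 0

namespace IsMdl

variable {S : Sys W} {σ : F →+* W.K} {R : Ops W F V} (h : IsMdl S σ R)
include h

lemma op {X Y : 𝒱.Obj} {a : (V X →ₗ[F] V Y) × (W.H X →ₗ[W.K] W.H Y)} (ha : a ∈ R X Y) :
    a.2 ∈ S.Op X Y := by
  rw [← h.span]
  exact Submodule.subset_span ⟨a, ha, rfl⟩

lemma zero (X Y : 𝒱.Obj) {a : (V X →ₗ[F] V Y) × (W.H X →ₗ[W.K] W.H Y)} (ha : a ∈ R X Y) :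
    (0 : (V X →ₗ[F] V Y) × (W.H X →ₗ[W.K] W.H Y)) ∈ R X Y := by
  have h1 := h.smul 0 ha
  rw [zero_smul, map_zero, zero_smul] at h1
  exact h1

lemma neg {X Y : 𝒱.Obj} {a : (V X →ₗ[F] V Y) × (W.H X →ₗ[W.K] W.H Y)} (ha : a ∈ R X Y) :
    (-a.1, -a.2) ∈ R X Y := by
  have h1 := h.smul (-1) ha
  have h2 : ((-1 : F) • a.1, σ (-1) • a.2) = (-a.1, -a.2) := by
    refine Prod.ext ?_ ?_
    · exact neg_one_smul F a.1
    · have h3 : σ (-1) = -1 := by rw [map_neg, map_one]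
      change σ (-1) • a.2 = -a.2
      rw [h3]
      exact neg_one_smul W.K a.2
  rwa [h2] at h1

lemma sub {X Y : 𝒱.Obj} {a b : (V X →ₗ[F] V Y) × (W.H X →ₗ[W.K] W.H Y)} (ha : a ∈ R X Y)
    (hb : b ∈ R X Y) : (a.1 - b.1, a.2 - b.2) ∈ R X Y := by
  have h1 := h.add ha (h.neg hb)
  have h2 : a + (-b.1, -b.2) = (a.1 - b.1, a.2 - b.2) :=
    Prod.ext (sub_eq_add_neg _ _).symm (sub_eq_add_neg _ _).symm
  rwa [h2] at h1

lemma aeval_mem {P : 𝒱.Obj} {x : Module.End F (V P) × Module.End W.K (W.H P)}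
    (hx : x ∈ R P P) (q : F[X]) :
    ((aeval x.1 q : V P →ₗ[F] V P), (aeval x.2 (q.map σ) : W.H P →ₗ[W.K] W.H P)) ∈ R P P := by
  induction q using Polynomial.induction_on' with
  | add p q hp hq =>
    have h1 := h.add hp hq
    rw [Polynomial.map_add, map_add, map_add]
    exact h1
  | monomial n a =>
    have h1 : ((x.1 ^ n : V P →ₗ[F] V P), (x.2 ^ n : W.H P →ₗ[W.K] W.H P)) ∈ R P P := by
      induction n with
      | zero =>
        rw [pow_zero, pow_zero]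
        exact h.one P
      | succ n ih =>
        rw [pow_succ, pow_succ]
        exact h.comp ih hx
    have h2 := h.smul a h1
    have h3 : (aeval x.1 (monomial n a) : V P →ₗ[F] V P) = a • (x.1 ^ n : V P →ₗ[F] V P) := by
      rw [aeval_monomial, Algebra.smul_def]
    have h4 : (aeval x.2 ((monomial n a).map σ) : W.H P →ₗ[W.K] W.H P) =
        σ a • (x.2 ^ n : W.H P →ₗ[W.K] W.H P) := by
      rw [map_monomial, aeval_monomial, Algebra.smul_def]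
    rw [h3, h4]
    exact h2

/-- Induction on the operators of the system. -/
lemma span_ind {X Y : 𝒱.Obj} {p : ∀ u : W.H X →ₗ[W.K] W.H Y, u ∈ S.Op X Y → Prop}
    (h1 : ∀ (a : (V X →ₗ[F] V Y) × (W.H X →ₗ[W.K] W.H Y)) (ha : a ∈ R X Y), p a.2 (h.op ha))
    (h0 : p 0 (Submodule.zero_mem _))
    (h2 : ∀ x y (hx : x ∈ S.Op X Y) (hy : y ∈ S.Op X Y), p x hx → p y hy →
      p (x + y) (Submodule.add_mem _ hx hy))
    (h3 : ∀ (c : W.K) x (hx : x ∈ S.Op X Y), p x hx → p (c • x) (Submodule.smul_mem _ c hx))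
    {u : W.H X →ₗ[W.K] W.H Y} (hu : u ∈ S.Op X Y) : p u hu := by
  have key : ∀ u (_ : u ∈ Submodule.span W.K (Prod.snd '' R X Y)) (hu : u ∈ S.Op X Y), p u hu := by
    intro u hu'
    induction hu' using Submodule.span_induction with
    | mem u hu =>
      obtain ⟨b, hb, rfl⟩ := hu
      exact fun _ => h1 b hb
    | zero => exact fun _ => h0
    | add u v hu' hv' hu hv =>
      rw [h.span] at hu' hv'
      exact fun _ => h2 u v hu' hv' (hu hu') (hv hv')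
    | smul e u hu' hu =>
      rw [h.span] at hu'
      exact fun _ => h3 e u hu' (hu hu')
  have hu' := hu
  rw [← h.span] at hu'
  exact key u hu' hu

lemma span_top (X Y : 𝒱.Obj) : Submodule.span W.K (Prod.snd ''
    {t : (V X →ₗ[F] V Y) × S.Op X Y | (t.1, (t.2 : W.H X →ₗ[W.K] W.H Y)) ∈ R X Y}) = ⊤ := by
  rw [eq_top_iff]
  rintro ⟨u, hu⟩ -
  refine h.span_ind (p := fun u hu => (⟨u, hu⟩ : S.Op X Y) ∈ Submodule.span W.K (Prod.snd ''
    {t : (V X →ₗ[F] V Y) × S.Op X Y | (t.1, (t.2 : W.H X →ₗ[W.K] W.H Y)) ∈ R X Y})) ?_ ?_ ?_ ?_ hu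
  · rintro ⟨a, b⟩ hab
    exact Submodule.subset_span ⟨(a, ⟨b, h.op hab⟩), hab, rfl⟩
  · exact Submodule.zero_mem _
  · intro x y hx hy h1 h2
    exact Submodule.add_mem _ h1 h2
  · intro c x hx h1
    exact Submodule.smul_mem _ c h1

lemma r_le_of {P Z : 𝒱.Obj} {γ : Module.End W.K (W.H P)} (hγ : Ev W γ) (z : V P)
    {N' N : ∀ X, Submodule F (V X)}
    (hN : Stable R N) (hz : z ∈ N P) [FiniteDimensional F (N Z)]
    (h0 : ∀ (a : (V P →ₗ[F] V Z) × (W.H P →ₗ[W.K] W.H Z)) (ha : a ∈ R P Z), a.1 z ∈ N' Z →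
      ∀ u, S.BO P Z γ LinearMap.id u ⟨a.2, h.op ha⟩ = 0) :
    S.r P γ Z ≤ finrank F ((N Z).map (N' Z).mkQ) := by
  rw [← S.rk_BO_r hγ]
  refine rk_sub_le (S.Op Z P) (S.Op P Z) (S.BO P Z γ LinearMap.id) σ
    {t : (V P →ₗ[F] V Z) × S.Op P Z | (t.1, (t.2 : W.H P →ₗ[W.K] W.H Z)) ∈ R P Z}
    ?_ ?_ (h.span_top P Z) ((N' Z).mkQ ∘ₗ (LinearMap.applyₗ z)) ?_ ((N Z).map (N' Z).mkQ) ?_
  · intro a ha b hb
    exact h.add ha hb
  · intro c a ha
    exact h.smul c ha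
  · rintro ⟨a, b, hb⟩ ha h1
    refine h0 (a, b) ha ?_
    change (N' Z).mkQ (a z) = 0 at h1
    rwa [Submodule.mkQ_apply, Submodule.Quotient.mk_eq_zero] at h1
  · rintro ⟨a, b, hb⟩ ha
    exact Submodule.mem_map_of_mem (hN P Z _ ha z hz)

lemma BO_zero {P Z : 𝒱.Obj} {γ : Module.End W.K (W.H P)} {v : W.H P →ₗ[W.K] W.H Z}
    (hv : v ∈ S.Op P Z) (h1 : ∀ a ∈ R Z P, LinearMap.trace W.K (W.H P)
      (par (W.isInternal P) ∘ₗ γ ∘ₗ a.2 ∘ₗ v) = 0) (u : S.Op Z P) :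
    S.BO P Z γ LinearMap.id u ⟨v, hv⟩ = 0 := by
  obtain ⟨u, hu⟩ := u
  rw [BO_apply, LinearMap.id_comp]
  change LinearMap.trace W.K (W.H P) (par (W.isInternal P) ∘ₗ γ ∘ₗ u ∘ₗ v) = 0
  refine h.span_ind (p := fun u _ => LinearMap.trace W.K (W.H P)
    (par (W.isInternal P) ∘ₗ γ ∘ₗ u ∘ₗ v) = 0) (fun a ha => h1 a ha) ?_ ?_ ?_ hu
  · rw [LinearMap.zero_comp, LinearMap.comp_zero, LinearMap.comp_zero, map_zero]
  · intro x y _ _ h1 h2
    rw [LinearMap.add_comp, LinearMap.comp_add, LinearMap.comp_add, map_add, h1, h2, add_zero]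
  · intro c x _ h1
    rw [LinearMap.smul_comp, LinearMap.comp_smul, LinearMap.comp_smul, map_smul, h1, smul_zero]

/-- The trace of a nilpotent operator vanishes. -/
lemma tr_nil {P : 𝒱.Obj} {x : Module.End W.K (W.H P)} (hx : x ∈ S.Op P P) (hn : IsNilpotent x) :
    LinearMap.trace W.K (W.H P) (par (W.isInternal P) ∘ₗ x) = 0 := by
  have h2 : IsNilpotent (par (W.isInternal P) * x) := by
    obtain ⟨n, hn⟩ := hn
    refine ⟨n, ?_⟩
    have hc : Commute (par (W.isInternal P) : Module.End W.K (W.H P)) x := (Op.ev hx).par_comm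
    rw [hc.mul_pow, hn, mul_zero]
  exact (LinearMap.isNilpotent_trace_of_isNilpotent h2).eq_zero

lemma r_le_of_key {P Z : 𝒱.Obj} {γ : Module.End W.K (W.H P)} (hγ : Ev W γ) (z : V P)
    {N' N : ∀ X, Submodule F (V X)} (hN' : Stable R N')
    (hN : Stable R N) (hz : z ∈ N P) (hfd : FiniteDimensional F (N Z))
    (key : ∀ x ∈ R P P, x.1 z ∈ N' P →
      LinearMap.trace W.K (W.H P) (par (W.isInternal P) ∘ₗ γ ∘ₗ x.2) = 0) :
    S.r P γ Z ≤ finrank F ((N Z).map (N' Z).mkQ) := by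
  refine h.r_le_of hγ z hN hz ?_
  intro a ha haz u
  refine h.BO_zero (h.op ha) ?_ u
  intro b hb
  have h1 := key (b.1 ∘ₗ a.1, b.2 ∘ₗ a.2) (h.comp hb ha) (hN' Z P _ hb _ haz)
  exact h1

lemma fit_pair {P : 𝒱.Obj} (hf : Fine σ R P) {y : Module.End F (V P)}
    {η : Module.End W.K (W.H P)} (hy : (y, η) ∈ R P P) :
    ∃ (π u : Module.End F (V P)) (ϖ υ : Module.End W.K (W.H P)), (u, υ) ∈ R P P ∧
      (π, ϖ) ∈ R P P ∧ π = u * y ∧ π = y * u ∧ ϖ = υ * η ∧ ϖ = η * υ ∧ π * π = π ∧ ϖ * ϖ = ϖ ∧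
      (ϖ = 0 → IsNilpotent η) := by
  obtain ⟨μ, hμ0, hμ1, hμ2⟩ := hf.alg _ hy
  change aeval y μ = 0 at hμ1
  change aeval η (μ.map σ) = 0 at hμ2
  obtain ⟨q, c, d, e, hq1, hq2⟩ := exists_fit_poly hμ0
  have hq1' : (q.map σ * X) * (q.map σ * X) = q.map σ * X - c.map σ * μ.map σ := by
    have := congrArg (Polynomial.map σ) hq1
    simpa only [Polynomial.map_mul, Polynomial.map_sub, Polynomial.map_X] using this
  have hq2' : X ^ (e + 1) = X ^ (e + 1) * (q.map σ * X) + d.map σ * μ.map σ := by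
    have := congrArg (Polynomial.map σ) hq2
    simpa only [Polynomial.map_mul, Polynomial.map_add, Polynomial.map_X,
      Polynomial.map_pow] using this
  have hcomm : aeval y q * y = y * aeval y q := by
    have : Commute (aeval y q) (aeval y (X : F[X])) := by
      rw [Commute, SemiconjBy, ← map_mul, ← map_mul, mul_comm]
    rw [aeval_X] at this
    exact this
  have hcomm' : aeval η (q.map σ) * η = η * aeval η (q.map σ) := by
    have : Commute (aeval η (q.map σ)) (aeval η (X : W.K[X])) := by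
      rw [Commute, SemiconjBy, ← map_mul, ← map_mul, mul_comm]
    rw [aeval_X] at this
    exact this
  have huR := h.aeval_mem hy q
  exact ⟨_, _, _, _, huR, h.comp huR hy, rfl, hcomm, rfl, hcomm', fit_idem hq1 hμ1,
    fit_idem hq1' hμ2, fun h0 => ⟨e + 1, fit_nil hq2' hμ2 h0⟩⟩

end IsMdl

end Pool.Agent.X312.RL
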