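import Pool.Agent.X312.RL.Mdl

/-!
# Stable families of subspaces in modules over correspondences: the step
-/

open CategoryTheory AlgebraicGeometry

universe u v w

namespace Pool.Agent.X312.RL

open Module Polynomial
open Pool.Agent.H914 Pool.Agent.H914.VarClass Pool.Agent.H914.VarClass.Obj
  Pool.Agent.H914.WeilCohomology Pool.Agent.Y133.Half Pool.Agent.Y133.Half.Sys

variable {k : Type u} [Field k] {𝒱 : VarClass k} {ops : CycleOps 𝒱}
  {W : WeilCohomology.{u, v} ops} {F : Type w} [Field F] {V : 𝒱.Obj → Type w}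
  [∀ X, AddCommGroup (V X)] [∀ X, Module F (V X)]

namespace IsMdl

variable {S : Sys W} {σ : F →+* W.K} {R : Ops W F V} (h : IsMdl S σ R)
include h

/-- **The step.** For stable families `N' ≤ N` which differ on `P` there is an idempotent `g ≠ 0`
such that the dimensions of `N' Z` and `N Z` differ at least by the rank of the form cut out by `g`,
for all `Z`. -/
theorem step {P : 𝒱.Obj} (hf : Fine σ R P) {N' N : ∀ X, Submodule F (V X)} (hN' : Stable R N')
    (hN : Stable R N) (hle : ∀ X, N' X ≤ N X) (hne : N' P ≠ N P) :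
    ∃ g ∈ S.Op P P, g ∘ₗ g = g ∧ g ≠ 0 ∧ ∀ Z, FiniteDimensional F (N Z) →
      finrank F (N' Z) + S.r P g Z ≤ finrank F (N Z) := by
  classical
  have hlt : N' P < N P := lt_of_le_of_ne (hle P) hne
  -- an idempotent of minimal rank which is not zero on `N P / N' P`
  let Q : ℕ → Prop := fun n => ∃ g ∈ R P P, g.1 ∘ₗ g.1 = g.1 ∧ g.2 ∘ₗ g.2 = g.2 ∧
    (∃ m ∈ N P, g.1 m ∉ N' P) ∧ finrank W.K (LinearMap.range g.2) = n
  have hQ : ∃ n, Q n := by
    obtain ⟨m, hm, hm'⟩ := SetLike.exists_of_lt hlt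
    exact ⟨_, _, h.one P, rfl, rfl, ⟨m, hm, hm'⟩, rfl⟩
  obtain ⟨⟨g, γ⟩, hg, hgg, hγγ, ⟨m, hm, hgm⟩, hn⟩ := Nat.find_spec hQ
  change g ∘ₗ g = g at hgg
  change γ ∘ₗ γ = γ at hγγ
  change g m ∉ N' P at hgm
  change finrank W.K (LinearMap.range γ) = _ at hn
  have hmin : ∀ g' ∈ R P P, g'.1 ∘ₗ g'.1 = g'.1 → g'.2 ∘ₗ g'.2 = g'.2 →
      finrank W.K (LinearMap.range g'.2) < finrank W.K (LinearMap.range γ) →
      ∀ m ∈ N P, g'.1 m ∈ N' P := by
    intro g' hg' hgg' hgg'' hlt' m hm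
    by_contra h'
    rw [hn] at hlt'
    exact Nat.find_min hQ hlt' ⟨g', hg', hgg', hgg'', ⟨m, hm, h'⟩, rfl⟩
  have hγ0 : γ ≠ 0 := by
    intro h0
    apply hgm
    have h1 := hf.phantom _ hg hgg h0
    change g = 0 at h1
    rw [h1, LinearMap.zero_apply]
    exact Submodule.zero_mem _
  have hγS : γ ∈ S.Op P P := h.op hg
  refine ⟨γ, hγS, hγγ, hγ0, fun Z hZ => ?_⟩
  set z := g m with hz
  have hzN : z ∈ N P := hN P P _ hg m hm
  have hgz : g z = z := congrArg (fun f : V P →ₗ[F] V P => f m) hgg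
  -- the key property
  have key : ∀ x ∈ R P P, x.1 z ∈ N' P →
      LinearMap.trace W.K (W.H P) (par (W.isInternal P) ∘ₗ γ ∘ₗ x.2) = 0 := by
    rintro ⟨x, ξ⟩ hx hxz
    change x z ∈ N' P at hxz
    change LinearMap.trace W.K (W.H P) (par (W.isInternal P) ∘ₗ γ ∘ₗ ξ) = 0
    have hyR : (g ∘ₗ x ∘ₗ g, γ ∘ₗ ξ ∘ₗ γ) ∈ R P P := h.comp hg (h.comp hx hg)
    obtain ⟨π, u, ϖ, υ, huR, hπR, e1, e2, e3, e4, hππ, hϖϖ, hnil⟩ := h.fit_pair hf hyR
    obtain ⟨hgπ, hπg, h1⟩ := idem_sub (A := Module.End F (V P)) (g := g) hgg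
      (by change g ∘ₗ (g ∘ₗ x ∘ₗ g) = _; rw [← LinearMap.comp_assoc, hgg])
      (by
        change (g ∘ₗ x ∘ₗ g) ∘ₗ g = _
        rw [LinearMap.comp_assoc, LinearMap.comp_assoc, hgg]) e1 e2 hππ
    obtain ⟨hγϖ, hϖγ, h1'⟩ := idem_sub (A := Module.End W.K (W.H P)) (g := γ) hγγ
      (by change γ ∘ₗ (γ ∘ₗ ξ ∘ₗ γ) = _; rw [← LinearMap.comp_assoc, hγγ])
      (by
        change (γ ∘ₗ ξ ∘ₗ γ) ∘ₗ γ = _
        rw [LinearMap.comp_assoc, LinearMap.comp_assoc, hγγ]) e3 e4 hϖϖ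
    have hyz : (g ∘ₗ x ∘ₗ g) z ∈ N' P := by
      rw [LinearMap.comp_apply, LinearMap.comp_apply, hgz]
      exact hN' P P _ hg _ hxz
    have hϖ0 : ϖ = 0 := by
      by_contra hne
      have h3 := finrank_sub_lt (γ := γ) hγγ hγϖ hϖγ hϖϖ hne
      have h4 : (g - π) z ∈ N' P := hmin (g - π, γ - ϖ) (h.sub hg hπR) h1 h1' h3 z hzN
      have h5 : π z ∈ N' P := by
        rw [e1, Module.End.mul_apply]
        exact hN' P P _ huR _ hyz
      have h6 : z ∈ N' P := by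
        have : z = (g - π) z + π z := by rw [LinearMap.sub_apply, hgz, sub_add_cancel]
        rw [this]
        exact Submodule.add_mem _ h4 h5
      exact hgm h6
    rw [trace_compress (p := par (W.isInternal P)) (γ := γ) hγγ (Op.ev hγS).par_comm]
    exact h.tr_nil (h.op hyR) (hnil hϖ0)
  have hmain := h.r_le_of_key (Op.ev hγS) z hN' hN hzN hZ key
  have hr7 : finrank F ((N Z).map (N' Z).mkQ) + finrank F (N' Z) = finrank F (N Z) := by
    have h1 := LinearMap.finrank_range_add_finrank_ker ((N' Z).mkQ.domRestrict (N Z))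
    rw [LinearMap.range_domRestrict] at h1
    rw [← h1]
    congr 1
    have h2 : LinearMap.ker ((N' Z).mkQ.domRestrict (N Z)) = (N' Z).submoduleOf (N Z) := by
      ext x
      simp [Submodule.submoduleOf]
    rw [h2]
    exact (Submodule.submoduleOfEquivOfLe (hle Z)).finrank_eq.symm
  omega

end IsMdl

end Pool.Agent.X312.RL
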