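import Pool.Agent.X312.RL.Rel
import Pool.Agent.Y163.TateC
import Pool.Agent.Y133.Half.TrueTate
import Pool.Agent.Y129.Gal

/-!
# The relative law for the orders of the poles of zeta functions
-/

open CategoryTheory AlgebraicGeometry

universe u v w

namespace Pool.Agent.X312.RL

open Module Polynomial
open Pool.Agent.H914 Pool.Agent.H914.VarClass Pool.Agent.H914.VarClass.Obj
  Pool.Agent.H914.WeilCohomology Pool.Agent.Y133.Half Pool.Agent.Y133.Half.Sys
  Pool.Agent.W534 Pool.Agent.Y163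

variable {k : Type u} [Field k] {𝒱 : VarClass k} {ops : CycleOps 𝒱}
  {W : WeilCohomology.{u, v} ops} {X Y Z : 𝒱.Obj} {p : ℕ}

/-- The sum of the dimensions of the spaces of the generalised Tate classes of all degrees. -/
lemma finrank_TC (Φ : FrobSystem W p) (Z : 𝒱.Obj) :
    finrank W.K ((tateSys Φ).C Z) =
      ∑ j ∈ Finset.range (Z.dim + 1), finrank W.K (genU Φ Z j) := by
  have h1 : (tateSys Φ).C Z = ⨆ j, genU Φ Z j := by
    apply le_antisymm
    · intro x hx
      refine TC.ind (q := fun x => x ∈ ⨆ j, genU Φ Z j) ?_ (Submodule.zero_mem _)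
        (fun x y hx hy => Submodule.add_mem _ hx hy) hx
      intro s j hs x hx
      exact Submodule.mem_iSup_of_mem j ((mem_genU Φ).2 ⟨s, hs, hx⟩)
    · refine iSup_le fun j x hx => ?_
      obtain ⟨s, hs, hx⟩ := (mem_genU Φ).1 hx
      exact TC.of hs hx
  rw [h1]
  refine Pool.Agent.Y129.finrank_iSup_eq_sum ?_ ?_
  · refine (Pool.Agent.Y129.indep_even W Z).mono fun j x hx => ?_
    obtain ⟨s, _, hx⟩ := (mem_genU Φ).1 hx
    exact hx.2
  · intro j hj
    rw [eq_bot_iff]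
    intro x hx
    obtain ⟨s, _, hx⟩ := (mem_genU Φ).1 hx
    have h2 := hx.2
    rwa [W.gr_eq_bot Z (2 * j) (by omega)] at h2

lemma numRank_le_genU (Φ : FrobSystem W p) {Z : 𝒱.Obj} {j : ℕ} (hj : j ≤ Z.dim) :
    numRank ops Z j ≤ finrank W.K (genU Φ Z j) := by
  rw [numRank_eq (W := W) hj]
  exact (kRank_le _ _).trans (Submodule.finrank_mono (span_le_genU Φ _ _))

/-- **The relative law for zeta functions.** -/
theorem pole_rel (hp : 1 < p) (Φ : FrobSystem W p) (σ : W.K →+* ℂ)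
    (hRH : ∀ Z : 𝒱.Obj, RiemannHyp Φ σ Z) (X Y : 𝒱.Obj) :
    ∃ z : 𝒱.Obj → ℕ → ℕ,
      (∀ Z j, j ≤ Z.dim → PoleOrderIs Φ σ Z j (z Z j) ∧ numRank ops Z j ≤ z Z j) ∧
      ∀ m, (∀ j, j ≤ (Y.prod (Pool.Agent.Y133.Half.pw X m)).dim → PoleFormula Φ σ (Y.prod (Pool.Agent.Y133.Half.pw X m)) j) ∨
        ∀ n, (cycRank ops (Y.prod (Pool.Agent.Y133.Half.pw X n)) : ℝ) +
          (1 - cst (finrank W.K (W.H X)) (m + 1) 2 n) * cycRank ops (Pool.Agent.Y133.Half.pw X n) ≤
          ∑ j ∈ Finset.range ((Y.prod (Pool.Agent.Y133.Half.pw X n)).dim + 1), z (Y.prod (Pool.Agent.Y133.Half.pw X n)) j := by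
  refine ⟨fun Z j => finrank W.K (genU Φ Z j), fun Z j hj =>
    ⟨poleOrderIs hp (hRH Z) hj, numRank_le_genU Φ hj⟩, fun m => ?_⟩
  by_cases hne : (algSys W).C (Y.prod (Pool.Agent.Y133.Half.pw X m)) ≠ (tateSys Φ).C (Y.prod (Pool.Agent.Y133.Half.pw X m)) ∨
    (algSys W).Num (Y.prod (Pool.Agent.Y133.Half.pw X m)) ≠ ⊥
  · right
    intro n
    have h := full_rel (S := algSys W) (T := tateSys Φ) (alg_le_tate Φ) Y hne n
    rw [numDim_eq_cycRank, numDim_eq_cycRank, finrank_TC] at h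
    exact h
  · left
    push Not at hne
    intro j hj
    have h1 := (algSys W).a_add_num (Y.prod (Pool.Agent.Y133.Half.pw X m))
    rw [hne.2, finrank_bot, add_zero, hne.1, finrank_TC, numDim_eq_cycRank, cycRank] at h1
    have h2 := (Finset.sum_eq_sum_iff_of_le (fun j hj => numRank_le_genU (ops := ops) Φ
      (Z := Y.prod (Pool.Agent.Y133.Half.pw X m)) (by rw [Finset.mem_range] at hj; omega))).1 h1 j
      (Finset.mem_range.2 (by omega))
    have h3 := poleOrderIs (Φ := Φ) (σ := σ) hp (hRH (Y.prod (Pool.Agent.Y133.Half.pw X m))) hj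
    rw [← h2] at h3
    exact h3

end Pool.Agent.X312.RL
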